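import Pool.Agent.Helper44.PFR.Ent

set_option autoImplicit false
set_option linter.unusedSectionVars false

open scoped BigOperators
open Classical

namespace PFR44

variable {Ω Ω' Ω₁ Ω₂ α β γ δ : Type} [Fintype Ω] [Fintype Ω'] [Fintype Ω₁] [Fintype Ω₂]

/-- conditional weight on the cell of `ω` -/
noncomputable def cm (μ : Ω → ℝ) (Z : Ω → γ) (ω : Ω) (ω' : Ω) : ℝ :=
  (if Z ω' = Z ω then μ ω' else 0) / cell μ Z ω

lemma Pr.cm {μ : Ω → ℝ} (h : Pr μ) (Z : Ω → γ) {ω : Ω} (hω : 0 < μ ω) : Pr (cm μ Z ω) := by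
  constructor
  · intro ω'
    unfold PFR44.cm
    refine div_nonneg ?_ (cell_nonneg h.nn Z ω)
    split_ifs
    · exact h.nn ω'
    · exact le_refl _
  · unfold PFR44.cm
    rw [← Finset.sum_div]
    exact div_self (cell_pos h.nn Z hω).ne'

lemma cell_cm {μ : Ω → ℝ} (Z : Ω → γ) (F : Ω → α) {ω ω' : Ω} (hZ : Z ω' = Z ω) :
    cell (cm μ Z ω) F ω' = cell μ (fun ω => (F ω, Z ω)) ω' / cell μ Z ω := by
  unfold cm
  conv_lhs => unfold cell
  conv_rhs => unfold cell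
  rw [Finset.sum_div]
  refine Finset.sum_congr rfl (fun ω₂ _ => ?_)
  simp only [Prod.mk.injEq]
  by_cases h1 : F ω₂ = F ω'
  · rw [if_pos h1]
    by_cases h2 : Z ω₂ = Z ω
    · rw [if_pos h2, if_pos ⟨h1, h2.trans hZ.symm⟩]
    · rw [if_neg h2, if_neg (fun h3 : F ω₂ = F ω' ∧ Z ω₂ = Z ω' => h2 (h3.2.trans hZ))]
  · rw [if_neg h1, if_neg (fun h3 : F ω₂ = F ω' ∧ Z ω₂ = Z ω' => h1 h3.1), zero_div]

/-- conditional entropy as an average -/
theorem condH {μ : Ω → ℝ} (hμ : Pr μ) (F : Ω → α) (Z : Ω → γ) :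
    ∑ ω, μ ω * En (cm μ Z ω) F = En μ (fun ω => (F ω, Z ω)) - En μ Z := by
  set L : Ω → ℝ := fun ω' => Real.log (cell μ (fun ω => (F ω, Z ω)) ω') - Real.log (cell μ Z ω')
    with hL
  have h1 : ∀ ω, μ ω * En (cm μ Z ω) F
      = - ∑ ω', (if Z ω = Z ω' then μ ω / cell μ Z ω' else 0) * (μ ω' * L ω') := by
    intro ω
    unfold En
    rw [mul_neg, Finset.mul_sum]
    congr 1
    refine Finset.sum_congr rfl (fun ω' _ => ?_)
    by_cases hZ : Z ω' = Z ω
    · rw [if_pos hZ.symm]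
      rcases eq_or_lt_of_le (hμ.nn ω) with h0 | h0
      · rw [← h0]; ring
      · rcases eq_or_lt_of_le (hμ.nn ω') with h2 | h2
        · rw [← h2, zero_mul, mul_zero]
          unfold cm
          rw [if_pos hZ, ← h2]
          ring
        · rw [cell_cm Z F hZ, Real.log_div (cell_pos hμ.nn _ h2).ne' (cell_pos hμ.nn _ h0).ne']
          have h3 : L ω' = Real.log (cell μ (fun ω => (F ω, Z ω)) ω') - Real.log (cell μ Z ω) := by
            rw [← cell_congr μ hZ]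
          rw [h3]
          unfold cm
          rw [if_pos hZ, cell_congr μ hZ]
          ring
    · rw [if_neg (fun h => hZ h.symm)]
      unfold cm
      rw [if_neg hZ]
      ring
  simp only [h1]
  rw [Finset.sum_neg_distrib, Finset.sum_comm]
  have h2 : ∀ ω', ∑ ω, (if Z ω = Z ω' then μ ω / cell μ Z ω' else 0) * (μ ω' * L ω')
      = μ ω' * L ω' := by
    intro ω'
    rw [← Finset.sum_mul]
    rcases eq_or_lt_of_le (hμ.nn ω') with h0 | h0
    · rw [← h0]; ring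
    · have h3 : ∑ ω, (if Z ω = Z ω' then μ ω / cell μ Z ω' else 0) = 1 := by
        have h4 : ∀ ω, (if Z ω = Z ω' then μ ω / cell μ Z ω' else 0)
            = (if Z ω = Z ω' then μ ω else 0) / cell μ Z ω' := by
          intro ω; split_ifs
          · rfl
          · rw [zero_div]
        simp only [h4]
        rw [← Finset.sum_div]
        exact div_self (cell_pos hμ.nn Z h0).ne'
      rw [h3, one_mul]
  simp only [h2]
  unfold En
  rw [hL]
  simp only [mul_sub]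
  rw [Finset.sum_sub_distrib]
  ring

lemma cm_prd (μ : Ω → ℝ) (μ' : Ω' → ℝ) (Z : Ω → γ) (Z' : Ω' → δ) (w : Ω × Ω') :
    cm (prd μ μ') (fun w => (Z w.1, Z' w.2)) w = prd (cm μ Z w.1) (cm μ' Z' w.2) := by
  funext w'
  unfold cm
  rw [cell_prd]
  unfold prd
  simp only [Prod.mk.injEq]
  by_cases h1 : Z w'.1 = Z w.1
  · by_cases h2 : Z' w'.2 = Z' w.2
    · simp only [h1, h2, and_self, if_true]
      rw [div_mul_div_comm]
    · simp only [h1, h2, and_false, if_true, if_false, zero_div, mul_zero]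
  · simp only [h1, false_and, if_false, zero_div, zero_mul]

lemma Mp.law {π : Ω → Ω'} {μ : Ω → ℝ} {μ' : Ω' → ℝ} (h : Mp π μ μ') (f : Ω' → α) :
    law μ (fun ω => f (π ω)) = law μ' f := by
  funext a
  unfold PFR44.law
  have h1 := h.sum (fun ω' => if f ω' = a then 1 else 0)
  simpa using h1

lemma Mp.prd {μ₁ : Ω₁ → ℝ} {ν₁ : Ω → ℝ} {μ₂ : Ω₂ → ℝ} {ν₂ : Ω' → ℝ} {π₁ : Ω₁ → Ω} {π₂ : Ω₂ → Ω'}
    (h1 : Mp π₁ μ₁ ν₁) (h2 : Mp π₂ μ₂ ν₂) :
    Mp (fun w : Ω₁ × Ω₂ => (π₁ w.1, π₂ w.2)) (prd μ₁ μ₂) (prd ν₁ ν₂) := by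
  rintro ⟨a, b⟩
  unfold PFR44.prd
  rw [← h1 a, ← h2 b, Fintype.sum_prod_type, Finset.sum_mul_sum]
  refine Finset.sum_congr rfl (fun x _ => Finset.sum_congr rfl (fun y _ => ?_))
  simp only [Prod.mk.injEq]
  by_cases h3 : π₁ x = a
  · by_cases h4 : π₂ y = b
    · simp [h3, h4]
    · simp [h3, h4]
  · simp [h3]

/-- conditionally independent copies -/
noncomputable def cic (μ : Ω → ℝ) (Z : Ω → γ) (w : Ω × Ω) : ℝ :=
  if Z w.2 = Z w.1 then μ w.1 * μ w.2 / cell μ Z w.1 else 0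

lemma mp_cic_fst {μ : Ω → ℝ} (h : Pr μ) (Z : Ω → γ) : Mp Prod.fst (cic μ Z) μ := by
  intro ω
  rw [Fintype.sum_prod_type, Finset.sum_eq_single ω]
  · simp only [if_true]
    unfold cic
    have h1 : ∀ ω₂, (if Z ω₂ = Z ω then μ ω * μ ω₂ / cell μ Z ω else 0)
        = μ ω / cell μ Z ω * (if Z ω₂ = Z ω then μ ω₂ else 0) := by
      intro ω₂; split_ifs <;> ring
    simp only [h1]
    rw [← Finset.mul_sum]
    change μ ω / cell μ Z ω * cell μ Z ω = μ ω
    rcases eq_or_lt_of_le (h.nn ω) with h0 | h0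
    · rw [← h0]; ring
    · exact div_mul_cancel₀ _ (cell_pos h.nn Z h0).ne'
  · intro ω₂ _ h2
    exact Finset.sum_eq_zero (fun ω₃ _ => if_neg h2)
  · intro h; exact absurd (Finset.mem_univ _) h

lemma mp_cic_snd {μ : Ω → ℝ} (h : Pr μ) (Z : Ω → γ) : Mp Prod.snd (cic μ Z) μ := by
  intro ω
  rw [Fintype.sum_prod_type_right, Finset.sum_eq_single ω]
  · simp only [if_true]
    unfold cic
    have h1 : ∀ ω₁, (if Z ω = Z ω₁ then μ ω₁ * μ ω / cell μ Z ω₁ else 0)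
        = μ ω / cell μ Z ω * (if Z ω₁ = Z ω then μ ω₁ else 0) := by
      intro ω₁
      by_cases h2 : Z ω = Z ω₁
      · rw [if_pos h2, if_pos h2.symm, cell_congr μ h2]; ring
      · rw [if_neg h2, if_neg (fun h => h2 h.symm)]; ring
    simp only [h1]
    rw [← Finset.mul_sum]
    change μ ω / cell μ Z ω * cell μ Z ω = μ ω
    rcases eq_or_lt_of_le (h.nn ω) with h0 | h0
    · rw [← h0]; ring
    · exact div_mul_cancel₀ _ (cell_pos h.nn Z h0).ne'
  · intro ω₂ _ h2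
    exact Finset.sum_eq_zero (fun ω₃ _ => if_neg h2)
  · intro h; exact absurd (Finset.mem_univ _) h

lemma Pr.cic {μ : Ω → ℝ} (h : Pr μ) (Z : Ω → γ) : Pr (cic μ Z) := by
  constructor
  · intro w
    unfold PFR44.cic
    split_ifs
    · exact div_nonneg (mul_nonneg (h.nn _) (h.nn _)) (cell_nonneg h.nn Z _)
    · exact le_refl _
  · have h1 := (mp_cic_fst h Z).sum (fun _ => 1)
    simp only [mul_one] at h1
    rw [h1, h.one]

lemma cic_pos {μ : Ω → ℝ} (h : Pr μ) (Z : Ω → γ) {w : Ω × Ω} (hw : 0 < cic μ Z w) :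
    0 < μ w.1 := by
  rcases eq_or_lt_of_le (h.nn w.1) with h0 | h0
  · exfalso
    unfold cic at hw
    rw [← h0] at hw
    simp at hw
  · exact h0

lemma cm_cic {μ : Ω → ℝ} (h : Pr μ) (Z : Ω → γ) (w : Ω × Ω) :
    cm (cic μ Z) (fun w => Z w.1) w = prd (cm μ Z w.1) (cm μ Z w.1) := by
  funext w'
  have h1 : cell (cic μ Z) (fun w => Z w.1) w = cell μ Z w.1 := (mp_cic_fst h Z).cell Z w
  unfold cm
  rw [h1]
  unfold prd cic
  dsimp only
  by_cases h2 : Z w'.1 = Z w.1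
  · rw [if_pos h2, if_pos h2]
    by_cases h3 : Z w'.2 = Z w'.1
    · rw [if_pos h3, if_pos (h3.trans h2), cell_congr μ h2]
      rw [div_mul_div_comm, div_div]
    · rw [if_neg h3, if_neg (fun h4 : Z w'.2 = Z w.1 => h3 (h4.trans h2.symm)), zero_div, mul_zero]
  · rw [if_neg h2, if_neg h2, zero_div, zero_mul]

/-- averages over positive weights -/
lemma sum_pos_congr {μ : Ω → ℝ} (h : ∀ ω, 0 ≤ μ ω) {f g : Ω → ℝ}
    (hfg : ∀ ω, 0 < μ ω → f ω = g ω) : ∑ ω, μ ω * f ω = ∑ ω, μ ω * g ω := by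
  refine Finset.sum_congr rfl (fun ω _ => ?_)
  rcases eq_or_lt_of_le (h ω) with h0 | h0
  · rw [← h0]; ring
  · rw [hfg ω h0]

lemma sum_pos_le {μ : Ω → ℝ} (h : ∀ ω, 0 ≤ μ ω) {f g : Ω → ℝ}
    (hfg : ∀ ω, 0 < μ ω → f ω ≤ g ω) : ∑ ω, μ ω * f ω ≤ ∑ ω, μ ω * g ω := by
  refine Finset.sum_le_sum (fun ω _ => ?_)
  rcases eq_or_lt_of_le (h ω) with h0 | h0
  · rw [← h0]; simp
  · exact mul_le_mul_of_nonneg_left (hfg ω h0) h0.le

/-- entropy of conditionally independent copies -/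
theorem En_cic {μ : Ω → ℝ} (h : Pr μ) (Z : Ω → γ) (f : Ω → α) (g : Ω → β) :
    En (cic μ Z) (fun w => ((f w.1, g w.2), Z w.1))
      = En μ (fun ω => (f ω, Z ω)) + En μ (fun ω => (g ω, Z ω)) - En μ Z := by
  have h1 := condH (h.cic Z) (fun w : Ω × Ω => (f w.1, g w.2)) (fun w => Z w.1)
  have h2 : En (cic μ Z) (fun w => Z w.1) = En μ Z := (mp_cic_fst h Z).En Z
  have h3 : ∑ w, cic μ Z w * En (cm (cic μ Z) (fun w => Z w.1) w) (fun w : Ω × Ω => (f w.1, g w.2))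
      = ∑ w, cic μ Z w * (En (cm μ Z w.1) f + En (cm μ Z w.1) g) := by
    refine sum_pos_congr (h.cic Z).nn (fun w hw => ?_)
    rw [cm_cic h, En_prd (h.cm Z (cic_pos h Z hw)) (h.cm Z (cic_pos h Z hw))]
  have h4 := (mp_cic_fst h Z).sum (fun ω => En (cm μ Z ω) f + En (cm μ Z ω) g)
  rw [h3, h4] at h1
  simp only [mul_add] at h1
  rw [Finset.sum_add_distrib, condH h, condH h, h2] at h1
  linarith

end PFR44
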