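import Mathlib

set_option autoImplicit false
set_option linter.unusedSectionVars false

open scoped BigOperators
open Classical

namespace PFR44

variable {Ω Ω' α β γ δ : Type} [Fintype Ω] [Fintype Ω']

/-- the mass of the cell of `ω` -/
noncomputable def cell (μ : Ω → ℝ) (f : Ω → α) (ω : Ω) : ℝ :=
  ∑ ω', if f ω' = f ω then μ ω' else 0

/-- entropy of `f` under the weight `μ` -/
noncomputable def En (μ : Ω → ℝ) (f : Ω → α) : ℝ := - ∑ ω, μ ω * Real.log (cell μ f ω)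

/-- probability weights -/
structure Pr (μ : Ω → ℝ) : Prop where
  nn : ∀ ω, 0 ≤ μ ω
  one : ∑ ω, μ ω = 1

lemma le_cell {μ : Ω → ℝ} (hμ : ∀ ω, 0 ≤ μ ω) (f : Ω → α) (ω : Ω) : μ ω ≤ cell μ f ω := by
  unfold cell
  have h1 := Finset.single_le_sum (f := fun ω' => if f ω' = f ω then μ ω' else 0)
    (fun ω' _ => by split_ifs; exact hμ ω'; exact le_refl _) (Finset.mem_univ ω)
  simpa using h1

lemma cell_nonneg {μ : Ω → ℝ} (hμ : ∀ ω, 0 ≤ μ ω) (f : Ω → α) (ω : Ω) : 0 ≤ cell μ f ω :=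
  (hμ ω).trans (le_cell hμ f ω)

lemma cell_pos {μ : Ω → ℝ} (hμ : ∀ ω, 0 ≤ μ ω) (f : Ω → α) {ω : Ω} (h : 0 < μ ω) :
    0 < cell μ f ω := lt_of_lt_of_le h (le_cell hμ f ω)

lemma cell_le_sum {μ : Ω → ℝ} (hμ : ∀ ω, 0 ≤ μ ω) (f : Ω → α) (ω : Ω) :
    cell μ f ω ≤ ∑ ω, μ ω := by
  unfold cell
  refine Finset.sum_le_sum (fun ω' _ => ?_)
  split_ifs
  · exact le_refl _
  · exact hμ ω'

lemma cell_congr (μ : Ω → ℝ) {f : Ω → α} {ω ω' : Ω} (h : f ω = f ω') :
    cell μ f ω = cell μ f ω' := by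
  unfold cell; rw [h]

lemma cell_congr' (μ : Ω → ℝ) {f : Ω → α} {g : Ω → β}
    (h : ∀ ω ω', f ω = f ω' ↔ g ω = g ω') (ω : Ω) : cell μ f ω = cell μ g ω := by
  unfold cell
  refine Finset.sum_congr rfl (fun ω' _ => ?_)
  by_cases h1 : f ω' = f ω
  · rw [if_pos h1, if_pos ((h ω' ω).1 h1)]
  · rw [if_neg h1, if_neg (fun h2 => h1 ((h ω' ω).2 h2))]

/-- entropy only depends on the partition -/
lemma En_congr (μ : Ω → ℝ) {f : Ω → α} {g : Ω → β}
    (h : ∀ ω ω', f ω = f ω' ↔ g ω = g ω') : En μ f = En μ g := by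
  unfold En
  simp only [cell_congr' μ h]

/-- a finer map has a larger entropy -/
lemma En_mono {μ : Ω → ℝ} (hμ : ∀ ω, 0 ≤ μ ω) {f : Ω → α} {g : Ω → β}
    (h : ∀ ω ω', f ω = f ω' → g ω = g ω') : En μ g ≤ En μ f := by
  unfold En
  apply neg_le_neg
  refine Finset.sum_le_sum (fun ω _ => ?_)
  rcases eq_or_lt_of_le (hμ ω) with h0 | h0
  · rw [← h0]; simp
  · refine mul_le_mul_of_nonneg_left ?_ h0.le
    refine Real.log_le_log (cell_pos hμ f h0) ?_
    unfold cell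
    refine Finset.sum_le_sum (fun ω' _ => ?_)
    by_cases h1 : f ω' = f ω
    · rw [if_pos h1, if_pos (h _ _ h1)]
    · rw [if_neg h1]
      split_ifs
      · exact hμ ω'
      · exact le_refl _

lemma En_nonneg {μ : Ω → ℝ} (hμ : Pr μ) (f : Ω → α) : 0 ≤ En μ f := by
  unfold En
  rw [← Finset.sum_neg_distrib]
  refine Finset.sum_nonneg (fun ω _ => ?_)
  have h1 : Real.log (cell μ f ω) ≤ 0 := by
    refine Real.log_nonpos (cell_nonneg hμ.nn f ω) ?_
    rw [← hμ.one]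
    exact cell_le_sum hμ.nn f ω
  have := mul_nonneg (hμ.nn ω) (neg_nonneg.2 h1)
  linarith

/-- `π` transports `μ` to `μ'` -/
def Mp (π : Ω → Ω') (μ : Ω → ℝ) (μ' : Ω' → ℝ) : Prop :=
  ∀ ω', ∑ ω, (if π ω = ω' then μ ω else 0) = μ' ω'

lemma Mp.sum {π : Ω → Ω'} {μ : Ω → ℝ} {μ' : Ω' → ℝ} (h : Mp π μ μ') (g : Ω' → ℝ) :
    ∑ ω, μ ω * g (π ω) = ∑ ω', μ' ω' * g ω' := by
  have h1 : ∀ ω', μ' ω' * g ω' = ∑ ω, (if π ω = ω' then μ ω * g (π ω) else 0) := by
    intro ω'
    rw [← h ω', Finset.sum_mul]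
    refine Finset.sum_congr rfl (fun ω _ => ?_)
    split_ifs with h2
    · rw [h2]
    · rw [zero_mul]
  simp only [h1]
  rw [Finset.sum_comm]
  refine Finset.sum_congr rfl (fun ω _ => ?_)
  rw [Finset.sum_ite_eq]
  simp

lemma Mp.cell {π : Ω → Ω'} {μ : Ω → ℝ} {μ' : Ω' → ℝ} (h : Mp π μ μ') (f : Ω' → α) (ω : Ω) :
    cell μ (fun ω => f (π ω)) ω = cell μ' f (π ω) := by
  unfold PFR44.cell
  have h1 := h.sum (fun ω' => if f ω' = f (π ω) then 1 else 0)
  simpa using h1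

lemma Mp.En {π : Ω → Ω'} {μ : Ω → ℝ} {μ' : Ω' → ℝ} (h : Mp π μ μ') (f : Ω' → α) :
    En μ (fun ω => f (π ω)) = En μ' f := by
  unfold PFR44.En
  simp only [h.cell f]
  rw [h.sum (fun ω' => Real.log (PFR44.cell μ' f ω'))]

lemma Mp.of_equiv (e : Ω ≃ Ω') {μ : Ω → ℝ} {μ' : Ω' → ℝ} (h : ∀ ω, μ ω = μ' (e ω)) :
    Mp e μ μ' := by
  intro ω'
  rw [Finset.sum_eq_single (e.symm ω')]
  · rw [if_pos (e.apply_symm_apply ω'), h, e.apply_symm_apply]
  · intro ω _ hω
    rw [if_neg]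
    intro h2
    exact hω (by rw [← h2, e.symm_apply_apply])
  · intro h; exact absurd (Finset.mem_univ _) h

lemma Mp.pr {π : Ω → Ω'} {μ : Ω → ℝ} {μ' : Ω' → ℝ} (h : Mp π μ μ') (hμ : Pr μ) : Pr μ' := by
  constructor
  · intro ω'
    rw [← h ω']
    refine Finset.sum_nonneg (fun ω _ => ?_)
    split_ifs
    · exact hμ.nn ω
    · exact le_refl _
  · have := h.sum (fun _ => 1)
    simp only [mul_one] at this
    rw [← this, hμ.one]

/-- strong subadditivity -/
theorem submod {μ : Ω → ℝ} (hμ : Pr μ) (f : Ω → α) (g : Ω → β) (h : Ω → γ) :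
    En μ (fun ω => (f ω, g ω, h ω)) + En μ h
      ≤ En μ (fun ω => (f ω, h ω)) + En μ (fun ω => (g ω, h ω)) := by
  set F1 : Ω → ℝ := cell μ (fun ω => (f ω, h ω)) with hF1
  set F2 : Ω → ℝ := cell μ (fun ω => (g ω, h ω)) with hF2
  set F3 : Ω → ℝ := cell μ (fun ω => (f ω, g ω, h ω)) with hF3
  set F4 : Ω → ℝ := cell μ h with hF4
  have hp : ∀ ω, 0 < μ ω → 0 < F1 ω ∧ 0 < F2 ω ∧ 0 < F3 ω ∧ 0 < F4 ω := fun ω hω =>
    ⟨cell_pos hμ.nn _ hω, cell_pos hμ.nn _ hω, cell_pos hμ.nn _ hω, cell_pos hμ.nn _ hω⟩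
  have hn : ∀ ω, 0 ≤ F1 ω ∧ 0 ≤ F2 ω ∧ 0 ≤ F3 ω ∧ 0 ≤ F4 ω := fun ω =>
    ⟨cell_nonneg hμ.nn _ ω, cell_nonneg hμ.nn _ ω, cell_nonneg hμ.nn _ ω, cell_nonneg hμ.nn _ ω⟩
  -- the key inequality
  have key : ∑ ω, μ ω * (F1 ω * F2 ω / (F3 ω * F4 ω)) ≤ 1 := by
    have h1 : ∀ ω, μ ω * (F1 ω * F2 ω / (F3 ω * F4 ω))
        = ∑ ω1, ∑ ω2, (if f ω1 = f ω ∧ h ω1 = h ω then μ ω1 else 0)
          * (if g ω2 = g ω ∧ h ω2 = h ω then μ ω2 else 0) * (μ ω / F3 ω / F4 ω) := by
      intro ω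
      have h2 : F1 ω = ∑ ω1, (if f ω1 = f ω ∧ h ω1 = h ω then μ ω1 else 0) := by
        rw [hF1]; unfold cell; simp only [Prod.mk.injEq]
      have h3 : F2 ω = ∑ ω2, (if g ω2 = g ω ∧ h ω2 = h ω then μ ω2 else 0) := by
        rw [hF2]; unfold cell; simp only [Prod.mk.injEq]
      rw [h2, h3, Finset.sum_mul_sum, Finset.sum_div, Finset.mul_sum]
      refine Finset.sum_congr rfl (fun ω1 _ => ?_)
      rw [Finset.sum_div, Finset.mul_sum]
      refine Finset.sum_congr rfl (fun ω2 _ => ?_)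
      rw [div_div]
      ring
    simp only [h1]
    rw [Finset.sum_comm]
    have h4 : ∀ ω1, ∑ ω, ∑ ω2, (if f ω1 = f ω ∧ h ω1 = h ω then μ ω1 else 0)
          * (if g ω2 = g ω ∧ h ω2 = h ω then μ ω2 else 0) * (μ ω / F3 ω / F4 ω)
        ≤ μ ω1 := by
      intro ω1
      rw [Finset.sum_comm]
      have h5 : ∀ ω2, ∑ ω, (if f ω1 = f ω ∧ h ω1 = h ω then μ ω1 else 0)
          * (if g ω2 = g ω ∧ h ω2 = h ω then μ ω2 else 0) * (μ ω / F3 ω / F4 ω)
          ≤ if h ω2 = h ω1 then μ ω1 * μ ω2 / F4 ω1 else 0 := by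
        intro ω2
        by_cases h6 : h ω2 = h ω1
        · rw [if_pos h6]
          have h7 : ∀ ω, (if f ω1 = f ω ∧ h ω1 = h ω then μ ω1 else 0)
              * (if g ω2 = g ω ∧ h ω2 = h ω then μ ω2 else 0) * (μ ω / F3 ω / F4 ω)
              = μ ω1 * μ ω2 / F4 ω1 *
                (if f ω1 = f ω ∧ g ω2 = g ω ∧ h ω1 = h ω then μ ω / F3 ω else 0) := by
            intro ω
            by_cases h8 : f ω1 = f ω ∧ h ω1 = h ω
            · by_cases h9 : g ω2 = g ω
              · rw [if_pos h8, if_pos ⟨h9, h6.trans h8.2⟩, if_pos ⟨h8.1, h9, h8.2⟩]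
                have h10 : F4 ω = F4 ω1 := cell_congr μ h8.2.symm
                rw [h10]; ring
              · rw [if_neg (fun hh : g ω2 = g ω ∧ h ω2 = h ω => h9 hh.1),
                  if_neg (fun hh : f ω1 = f ω ∧ g ω2 = g ω ∧ h ω1 = h ω => h9 hh.2.1)]
                ring
            · rw [if_neg h8, if_neg (fun hh : f ω1 = f ω ∧ g ω2 = g ω ∧ h ω1 = h ω =>
                h8 ⟨hh.1, hh.2.2⟩)]
              ring
          simp only [h7]
          rw [← Finset.mul_sum]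
          have h11 : ∑ ω, (if f ω1 = f ω ∧ g ω2 = g ω ∧ h ω1 = h ω then μ ω / F3 ω else 0) ≤ 1 := by
            by_cases h12 : ∃ ω0, f ω1 = f ω0 ∧ g ω2 = g ω0 ∧ h ω1 = h ω0
            · obtain ⟨ω0, h0⟩ := h12
              have h13 : ∀ ω, (if f ω1 = f ω ∧ g ω2 = g ω ∧ h ω1 = h ω then μ ω / F3 ω else 0)
                  = (if (f ω, g ω, h ω) = (f ω0, g ω0, h ω0) then μ ω else 0) / F3 ω0 := by
                intro ω
                by_cases h14 : f ω1 = f ω ∧ g ω2 = g ω ∧ h ω1 = h ω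
                · have h15 : (f ω, g ω, h ω) = (f ω0, g ω0, h ω0) := by
                    rw [← h14.1, ← h14.2.1, ← h14.2.2, h0.1, h0.2.1, h0.2.2]
                  rw [if_pos h14, if_pos h15]
                  have h16 : F3 ω = F3 ω0 := cell_congr μ h15
                  rw [h16]
                · rw [if_neg h14, if_neg, zero_div]
                  intro h15
                  simp only [Prod.mk.injEq] at h15
                  apply h14
                  rw [h15.1, h15.2.1, h15.2.2]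
                  exact h0
              simp only [h13]
              rw [← Finset.sum_div]
              have h17 : ∑ ω, (if (f ω, g ω, h ω) = (f ω0, g ω0, h ω0) then μ ω else 0) = F3 ω0 := by
                rw [hF3]
                unfold cell
                refine Finset.sum_congr rfl (fun ω _ => ?_)
                by_cases h18 : (f ω, g ω, h ω) = (f ω0, g ω0, h ω0)
                · rw [if_pos h18, if_pos h18]
                · rw [if_neg h18, if_neg h18]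
              rw [h17]
              exact div_self_le_one (F3 ω0)
            · push Not at h12
              refine (le_of_eq (Finset.sum_eq_zero (fun ω _ => ?_))).trans (zero_le_one (α := ℝ))
              rw [if_neg]
              rintro ⟨h14, h15, h16⟩
              exact h12 ω h14 h15 h16
          have h17 : 0 ≤ μ ω1 * μ ω2 / F4 ω1 :=
            div_nonneg (mul_nonneg (hμ.nn _) (hμ.nn _)) (hn ω1).2.2.2
          calc μ ω1 * μ ω2 / F4 ω1 * _ ≤ μ ω1 * μ ω2 / F4 ω1 * 1 :=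
                mul_le_mul_of_nonneg_left h11 h17
            _ = _ := mul_one _
        · rw [if_neg h6]
          refine le_of_eq (Finset.sum_eq_zero (fun ω _ => ?_))
          by_cases h8 : f ω1 = f ω ∧ h ω1 = h ω
          · rw [if_neg (fun hh : g ω2 = g ω ∧ h ω2 = h ω => h6 (hh.2.trans h8.2.symm))]
            ring
          · rw [if_neg h8]; ring
      refine (Finset.sum_le_sum (fun ω2 _ => h5 ω2)).trans ?_
      have h18 : ∀ ω2, (if h ω2 = h ω1 then μ ω1 * μ ω2 / F4 ω1 else 0)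
          = μ ω1 / F4 ω1 * (if h ω2 = h ω1 then μ ω2 else 0) := by
        intro ω2
        split_ifs <;> ring
      simp only [h18]
      rw [← Finset.mul_sum]
      change μ ω1 / F4 ω1 * F4 ω1 ≤ μ ω1
      rcases eq_or_lt_of_le (hn ω1).2.2.2 with h19 | h19
      · rw [← h19, mul_zero]; exact hμ.nn ω1
      · rw [div_mul_cancel₀ _ h19.ne']
    refine (Finset.sum_le_sum (fun ω1 _ => h4 ω1)).trans (le_of_eq hμ.one)
  -- pointwise
  have hpt : ∀ ω, μ ω * (Real.log (F1 ω) + Real.log (F2 ω) - Real.log (F3 ω) - Real.log (F4 ω))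
      ≤ μ ω * (F1 ω * F2 ω / (F3 ω * F4 ω)) - μ ω := by
    intro ω
    rcases eq_or_lt_of_le (hμ.nn ω) with h0 | h0
    · rw [← h0]; simp
    · obtain ⟨p1, p2, p3, p4⟩ := hp ω h0
      have h20 : Real.log (F1 ω) + Real.log (F2 ω) - Real.log (F3 ω) - Real.log (F4 ω)
          = Real.log (F1 ω * F2 ω / (F3 ω * F4 ω)) := by
        rw [Real.log_div (mul_pos p1 p2).ne' (mul_pos p3 p4).ne', Real.log_mul p1.ne' p2.ne',
          Real.log_mul p3.ne' p4.ne']
        ring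
      rw [h20]
      have h21 := Real.log_le_sub_one_of_pos (x := F1 ω * F2 ω / (F3 ω * F4 ω)) (by positivity)
      have h22 := mul_le_mul_of_nonneg_left h21 h0.le
      linarith
  have hsum := Finset.sum_le_sum (fun ω (_ : ω ∈ Finset.univ) => hpt ω)
  rw [Finset.sum_sub_distrib, hμ.one] at hsum
  have h23 : ∑ ω, μ ω * (Real.log (F1 ω) + Real.log (F2 ω) - Real.log (F3 ω) - Real.log (F4 ω))
      = - En μ (fun ω => (f ω, h ω)) - En μ (fun ω => (g ω, h ω))
        + En μ (fun ω => (f ω, g ω, h ω)) + En μ h := by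
    unfold En
    rw [← hF1, ← hF2, ← hF3, ← hF4]
    have h24 : ∀ ω, μ ω * (Real.log (F1 ω) + Real.log (F2 ω) - Real.log (F3 ω) - Real.log (F4 ω))
        = μ ω * Real.log (F1 ω) + μ ω * Real.log (F2 ω) - μ ω * Real.log (F3 ω)
          - μ ω * Real.log (F4 ω) := by intro ω; ring
    simp only [h24]
    rw [Finset.sum_sub_distrib, Finset.sum_sub_distrib, Finset.sum_add_distrib]
    ring
  rw [h23] at hsum
  linarith

lemma En_const {μ : Ω → ℝ} (hμ : Pr μ) (c : α) : En μ (fun _ => c) = 0 := by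
  unfold En cell
  simp [hμ.one]

lemma En_pair_le {μ : Ω → ℝ} (hμ : Pr μ) (f : Ω → α) (g : Ω → β) :
    En μ (fun ω => (f ω, g ω)) ≤ En μ f + En μ g := by
  have h1 := submod hμ f g (fun _ => ())
  rw [En_const hμ, add_zero] at h1
  have h2 : En μ (fun ω => (f ω, g ω, ())) = En μ (fun ω => (f ω, g ω)) :=
    En_congr μ (fun ω ω' => by simp)
  have h3 : En μ (fun ω => (f ω, ())) = En μ f := En_congr μ (fun ω ω' => by simp)
  have h4 : En μ (fun ω => (g ω, ())) = En μ g := En_congr μ (fun ω ω' => by simp)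
  rw [h2, h3, h4] at h1
  exact h1

/-- product weights -/
def prd (μ : Ω → ℝ) (μ' : Ω' → ℝ) (w : Ω × Ω') : ℝ := μ w.1 * μ' w.2

lemma Pr.prd {μ : Ω → ℝ} {μ' : Ω' → ℝ} (h : Pr μ) (h' : Pr μ') : Pr (prd μ μ') := by
  constructor
  · intro w; exact mul_nonneg (h.nn _) (h'.nn _)
  · unfold PFR44.prd
    rw [Fintype.sum_prod_type]
    simp only [← Finset.mul_sum, h'.one, mul_one, h.one]

lemma cell_prd (μ : Ω → ℝ) (μ' : Ω' → ℝ) (f : Ω → α) (g : Ω' → β) (w : Ω × Ω') :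
    cell (prd μ μ') (fun w => (f w.1, g w.2)) w = cell μ f w.1 * cell μ' g w.2 := by
  unfold cell prd
  rw [Fintype.sum_prod_type, Finset.sum_mul_sum]
  refine Finset.sum_congr rfl (fun ω _ => Finset.sum_congr rfl (fun ω' _ => ?_))
  simp only [Prod.mk.injEq]
  by_cases h1 : f ω = f w.1
  · by_cases h2 : g ω' = g w.2
    · simp [h1, h2]
    · simp [h1, h2]
  · simp [h1]

lemma mp_fst {μ : Ω → ℝ} {μ' : Ω' → ℝ} (h' : Pr μ') : Mp (Prod.fst : Ω × Ω' → Ω) (prd μ μ') μ := by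
  intro ω
  unfold prd
  rw [Fintype.sum_prod_type, Finset.sum_eq_single ω]
  · simp [← Finset.mul_sum, h'.one]
  · intro ω2 _ h2
    exact Finset.sum_eq_zero (fun ω3 _ => if_neg h2)
  · intro h; exact absurd (Finset.mem_univ _) h

lemma mp_snd {μ : Ω → ℝ} {μ' : Ω' → ℝ} (h : Pr μ) : Mp (Prod.snd : Ω × Ω' → Ω') (prd μ μ') μ' := by
  intro ω
  unfold prd
  rw [Fintype.sum_prod_type_right, Finset.sum_eq_single ω]
  · simp [← Finset.sum_mul, h.one]
  · intro ω2 _ h2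
    exact Finset.sum_eq_zero (fun ω3 _ => if_neg h2)
  · intro h; exact absurd (Finset.mem_univ _) h

/-- entropy of independent variables -/
lemma En_prd {μ : Ω → ℝ} {μ' : Ω' → ℝ} (h : Pr μ) (h' : Pr μ') (f : Ω → α) (g : Ω' → β) :
    En (prd μ μ') (fun w => (f w.1, g w.2)) = En μ f + En μ' g := by
  have h1 : En (prd μ μ') (fun w => f w.1) = En μ f := (mp_fst h').En f
  have h2 : En (prd μ μ') (fun w => g w.2) = En μ' g := (mp_snd h).En g
  rw [← h1, ← h2]
  have c1 : ∀ w, cell (prd μ μ') (fun w => f w.1) w = cell μ f w.1 := fun w => (mp_fst h').cell f w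
  have c2 : ∀ w, cell (prd μ μ') (fun w => g w.2) w = cell μ' g w.2 := fun w => (mp_snd h).cell g w
  unfold En
  simp only [cell_prd, c1, c2]
  rw [← neg_add, ← Finset.sum_add_distrib]
  congr 1
  refine Finset.sum_congr rfl (fun w _ => ?_)
  rcases eq_or_lt_of_le (h.nn w.1) with h0 | h0
  · unfold prd; rw [← h0]; ring
  · rcases eq_or_lt_of_le (h'.nn w.2) with h3 | h3
    · unfold prd; rw [← h3]; ring
    · rw [Real.log_mul (cell_pos h.nn f h0).ne' (cell_pos h'.nn g h3).ne']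
      ring

/-- the law of `f` -/
noncomputable def law (μ : Ω → ℝ) (f : Ω → α) (a : α) : ℝ := ∑ ω, if f ω = a then μ ω else 0

lemma mp_law [Fintype α] (μ : Ω → ℝ) (f : Ω → α) : Mp f μ (law μ f) := fun _ => rfl

lemma Pr.law [Fintype α] {μ : Ω → ℝ} (h : Pr μ) (f : Ω → α) : Pr (law μ f) := (mp_law μ f).pr h

/-- entropy of a law -/
noncomputable def Hl [Fintype α] (p : α → ℝ) : ℝ := ∑ x, Real.negMulLog (p x)

lemma Hl_eq [Fintype α] (p : α → ℝ) : Hl p = En p id := by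
  unfold Hl En Real.negMulLog cell
  simp only [id, Finset.sum_ite_eq', Finset.mem_univ, if_true, neg_mul, Finset.sum_neg_distrib]

lemma En_law [Fintype α] (μ : Ω → ℝ) (f : Ω → α) : En μ f = Hl (law μ f) := by
  rw [Hl_eq, ← (mp_law μ f).En id]
  rfl

end PFR44
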