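import Pool.Agent.Helper44.PFR.Min

set_option autoImplicit false
set_option linter.unusedSectionVars false

open scoped BigOperators
open Classical

namespace PFR44

variable {Ω Ω' Ω₁ Ω₂ α β γ δ : Type} [Fintype Ω] [Fintype Ω'] [Fintype Ω₁] [Fintype Ω₂]
variable {G : Type} [AddCommGroup G] [Fintype G]

/-- two functions of each other have the same entropy -/
lemma En_bij (μ : Ω → ℝ) {f : Ω → α} {g : Ω → β} (φ : α → β) (ψ : β → α)
    (h1 : ∀ ω, g ω = φ (f ω)) (h2 : ∀ ω, f ω = ψ (g ω)) : En μ f = En μ g := by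
  refine En_congr μ (fun ω ω' => ⟨fun h => ?_, fun h => ?_⟩)
  · rw [h1, h1, h]
  · rw [h2, h2, h]

/-- entropy only sees the support -/
lemma En_congr_supp {μ : Ω → ℝ} (hμ : ∀ ω, 0 ≤ μ ω) {f : Ω → α} {g : Ω → β}
    (h : ∀ ω ω', 0 < μ ω → 0 < μ ω' → (f ω = f ω' ↔ g ω = g ω')) : En μ f = En μ g := by
  unfold En
  congr 1
  refine sum_pos_congr hμ (fun ω hω => ?_)
  congr 1
  unfold cell
  refine Finset.sum_congr rfl (fun ω' _ => ?_)
  rcases eq_or_lt_of_le (hμ ω') with h0 | h0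
  · rw [← h0]; simp
  · by_cases h1 : f ω' = f ω
    · rw [if_pos h1, if_pos ((h ω' ω h0 hω).1 h1)]
    · rw [if_neg h1, if_neg (fun h2 => h1 ((h ω' ω h0 hω).2 h2))]

lemma cv_comm (p q : G → ℝ) : cv p q = cv q p := by
  have h1 : Mp (Equiv.prodComm G G) (prd p q) (prd q p) :=
    Mp.of_equiv _ (fun w => by unfold prd; simp [mul_comm])
  unfold cv
  rw [← h1.law (fun w : G × G => w.1 + w.2)]
  congr 1
  funext w
  simp [add_comm]

lemma dd_comm (p q : G → ℝ) : dd p q = dd q p := by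
  unfold dd
  rw [cv_comm]
  ring

/-- Kaimanovich-Vershik-Madiman -/
theorem kvm {p0 p1 p3 : G → ℝ} (h0 : Pr p0) (h1 : Pr p1) (h3 : Pr p3) :
    Hl (cv p0 (cv p1 p3)) + Hl p1 ≤ Hl (cv p0 p1) + Hl (cv p1 p3) := by
  set μ : G × (G × G) → ℝ := prd p0 (prd p1 p3) with hμ
  have hpr : Pr μ := h0.prd (h1.prd h3)
  have key := submod hpr (fun w => w.1) (fun w => w.2.2) (fun w => w.1 + (w.2.1 + w.2.2))
  have e1 : En μ (fun w => (w.1, w.2.2, w.1 + (w.2.1 + w.2.2))) = Hl p0 + (Hl p1 + Hl p3) := by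
    rw [Hl_eq p0, Hl_eq p1, Hl_eq p3, ← En_prd h1 h3, ← En_prd h0 (h1.prd h3)]
    exact En_bij μ (fun t : G × G × G => (id t.1, (id (t.2.2 - t.1 - t.2.1), id t.2.1)))
      (fun t : G × (G × G) => (t.1, t.2.2, t.1 + (t.2.1 + t.2.2)))
      (fun w => by simp) (fun w => by simp)
  have e2 : En μ (fun w => w.1 + (w.2.1 + w.2.2)) = Hl (cv p0 (cv p1 p3)) := by
    exact (Hl_cv_law' p0 (prd p1 p3) (fun w => w.1 + w.2)).symm
  have e3 : En μ (fun w => (w.1, w.1 + (w.2.1 + w.2.2))) = Hl p0 + Hl (cv p1 p3) := by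
    have h4 : Hl (cv p1 p3) = En (prd p1 p3) (fun w => w.1 + w.2) := by rw [En_law]; rfl
    rw [Hl_eq p0, h4, ← En_prd h0 (h1.prd h3)]
    exact En_bij μ (fun t : G × G => (id t.1, t.2 - t.1)) (fun t : G × G => (t.1, t.1 + t.2))
      (fun w => by simp) (fun w => by simp)
  have e4 : En μ (fun w => (w.2.2, w.1 + (w.2.1 + w.2.2))) = Hl p3 + Hl (cv p0 p1) := by
    have h4 : Hl (cv p0 p1) = En (prd p0 p1) (fun w => w.1 + w.2) := by rw [En_law]; rfl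
    have h5 : Mp (⟨fun w => (w.2.2, (w.1, w.2.1)), fun w => (w.2.1, (w.2.2, w.1)), fun w => rfl,
        fun w => rfl⟩ : G × (G × G) ≃ G × (G × G)) μ (prd p3 (prd p0 p1)) :=
      Mp.of_equiv _ (fun w => by
        rw [hμ]; unfold prd
        change p0 w.1 * (p1 w.2.1 * p3 w.2.2) = p3 w.2.2 * (p0 w.1 * p1 w.2.1)
        ring)
    rw [Hl_eq p3, h4, ← En_prd h3 (h0.prd h1), ← h5.En]
    exact En_bij μ (fun t : G × G => (id t.1, t.2 - t.1)) (fun t : G × G => (t.1, t.2 + t.1))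
      (fun w => by simp [sub_eq_add_neg, add_assoc])
      (fun w => by simp [add_assoc])
  rw [e1, e2, e3, e4] at key
  linarith

lemma dd_cv_le {p0 p1 p3 : G → ℝ} (h0 : Pr p0) (h1 : Pr p1) (h3 : Pr p3) :
    dd p0 (cv p1 p3) ≤ dd p0 p1 + (Hl (cv p1 p3) - Hl p1) / 2 := by
  have h := kvm h0 h1 h3
  unfold dd
  linarith

lemma le_Hl_cv {p q : G → ℝ} (hp : Pr p) (hq : Pr q) : Hl p ≤ Hl (cv p q) := by
  have h1 := En_pair_le (hp.prd hq) (fun w : G × G => w.1 + w.2) (fun w => w.2)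
  have h2 : En (prd p q) (fun w => (w.1 + w.2, w.2)) = Hl p + Hl q := by
    rw [Hl_eq p, Hl_eq q, ← En_prd hp hq]
    exact En_bij _ (fun t : G × G => (id (t.1 - t.2), id t.2)) (fun t : G × G => (t.1 + t.2, t.2))
      (fun w => by simp) (fun w => by simp)
  have h3 : En (prd p q) (fun w => w.2) = Hl q := by
    rw [Hl_eq q]; exact (mp_snd hp).En id
  have h4 : En (prd p q) (fun w => w.1 + w.2) = Hl (cv p q) := by rw [En_law]; rfl
  rw [h2, h3, h4] at h1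
  linarith

lemma dd_nonneg {p q : G → ℝ} (hp : Pr p) (hq : Pr q) : 0 ≤ dd p q := by
  have h1 := le_Hl_cv hp hq
  have h2 := le_Hl_cv hq hp
  rw [cv_comm] at h2
  unfold dd
  linarith

/-- dropping the conditioning -/
lemma dc_le {μ : Ω → ℝ} (hμ : Pr μ) {p0 : G → ℝ} (h0 : Pr p0) (A : Ω → G) (Z : Ω → γ) :
    dc p0 μ A Z ≤ Hl (cv p0 (law μ A)) - Hl p0 / 2 - (En μ (fun ω => (A ω, Z ω)) - En μ Z) / 2 := by
  have h1 := En_pair_le (h0.prd hμ) (fun w => w.1 + A w.2) (fun w => Z w.2)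
  have h2 : En (prd p0 μ) (fun w => Z w.2) = En μ Z := (mp_snd h0).En Z
  rw [h2, ← Hl_cv_law'] at h1
  unfold dc
  linarith

/-- refining the conditioning -/
lemma dc_pair_le {μ : Ω → ℝ} (hμ : Pr μ) {p0 : G → ℝ} (h0 : Pr p0) (A : Ω → G) (Z' : Ω → β)
    (Z : Ω → γ) :
    dc p0 μ A (fun ω => (Z' ω, Z ω)) ≤ dc p0 μ A Z
      + (En μ (fun ω => (A ω, Z ω)) + En μ (fun ω => (Z' ω, Z ω))
        - En μ (fun ω => (A ω, (Z' ω, Z ω))) - En μ Z) / 2 := by
  have h1 := submod (h0.prd hμ) (fun w => w.1 + A w.2) (fun w => Z' w.2) (fun w => Z w.2)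
  have h2 : En (prd p0 μ) (fun w => Z w.2) = En μ Z := (mp_snd h0).En Z
  have h3 : En (prd p0 μ) (fun w => (Z' w.2, Z w.2)) = En μ (fun ω => (Z' ω, Z ω)) :=
    (mp_snd h0).En (fun ω => (Z' ω, Z ω))
  rw [h2, h3] at h1
  unfold dc
  linarith

/-- translating by the conditioning variable -/
lemma dc_shift {μ : Ω → ℝ} {p0 : G → ℝ} {A B : Ω → G} {Z : Ω → G}
    (hAB : ∀ ω, B ω = A ω + Z ω) : dc p0 μ B Z = dc p0 μ A Z := by
  unfold dc
  have h1 : En (prd p0 μ) (fun w => (w.1 + B w.2, Z w.2))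
      = En (prd p0 μ) (fun w => (w.1 + A w.2, Z w.2)) :=
    En_bij _ (fun t : G × G => (t.1 - t.2, t.2)) (fun t : G × G => (t.1 + t.2, t.2))
      (fun w => by simp [hAB, ← add_assoc]) (fun w => by simp [hAB, add_assoc])
  have h2 : En μ (fun ω => (B ω, Z ω)) = En μ (fun ω => (A ω, Z ω)) :=
    En_bij _ (fun t : G × G => (t.1 - t.2, t.2)) (fun t : G × G => (t.1 + t.2, t.2))
      (fun w => by simp [hAB]) (fun w => by simp [hAB])
  rw [h1, h2]

/-- entropic Balog-Szemeredi-Gowers -/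
theorem bsg_ent (h2 : ∀ x : G, x + x = 0) {μ : Ω → ℝ} (hμ : Pr μ) (T1 T2 T3 : Ω → G)
    (hT : ∀ ω, T1 ω + T2 ω = T3 ω) (S : Ω → γ) :
    En (cic μ (fun ω => (T3 ω, S ω))) (fun w => (T1 w.1 + T2 w.2, (T3 w.1, S w.1)))
        - En μ (fun ω => (T3 ω, S ω))
      ≤ 2 * (En μ (fun ω => (T1 ω, S ω)) + En μ (fun ω => (T2 ω, S ω))
          - En μ (fun ω => (T1 ω, (T3 ω, S ω))) - En μ S)
        + En μ (fun ω => (T3 ω, S ω)) - En μ S := by
  set Z : Ω → G × γ := fun ω => (T3 ω, S ω) with hZ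
  set ν := cic μ Z with hν
  have hpr : Pr ν := hμ.cic Z
  have mf : Mp Prod.fst ν μ := mp_cic_fst hμ Z
  have ms : Mp Prod.snd ν μ := mp_cic_snd hμ Z
  have hsupp : ∀ w : Ω × Ω, 0 < ν w → T3 w.2 = T3 w.1 ∧ S w.2 = S w.1 := by
    intro w hw
    by_cases h : Z w.2 = Z w.1
    · rw [hZ] at h; simpa using h
    · exfalso
      rw [hν] at hw
      unfold cic at hw
      rw [if_neg h] at hw
      exact lt_irrefl _ hw
  -- drop `T3` from the conditioning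
  have s1 := submod hpr (fun w => T1 w.1 + T2 w.2) (fun w => T3 w.1) (fun w => S w.1)
  have f1 : En ν (fun w => S w.1) = En μ S := mf.En S
  have f2 : En ν (fun w => (T3 w.1, S w.1)) = En μ Z := mf.En Z
  rw [f1, f2] at s1
  -- the main submodularity
  have s2 := submod hpr (fun w => T1 w.1) (fun w => T1 w.2) (fun w => (T1 w.1 + T2 w.2, S w.1))
  have g1 : En ν (fun w => (T1 w.1, T1 w.2, (T1 w.1 + T2 w.2, S w.1)))
      = 2 * En μ (fun ω => (T1 ω, (T3 ω, S ω))) - En μ Z := by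
    have h3 := En_cic hμ Z T1 T1
    rw [← hν] at h3
    have h4 : En ν (fun w => (T1 w.1, T1 w.2, (T1 w.1 + T2 w.2, S w.1)))
        = En ν (fun w => ((T1 w.1, T1 w.2), Z w.1)) := by
      refine En_congr_supp hpr.nn (fun w w' hw hw' => ?_)
      obtain ⟨a1, -⟩ := hsupp w hw
      obtain ⟨a1', -⟩ := hsupp w' hw'
      simp only [hZ, Prod.mk.injEq]
      constructor
      · rintro ⟨b1, b2, b3, b4⟩
        refine ⟨⟨b1, b2⟩, ?_, b4⟩
        rw [← a1, ← a1', ← hT, ← hT, b2]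
        rw [b1] at b3
        rw [add_left_cancel b3]
      · rintro ⟨⟨b1, b2⟩, b3, b4⟩
        refine ⟨b1, b2, ?_, b4⟩
        rw [← a1, ← a1', ← hT, ← hT, b2] at b3
        rw [b1, add_left_cancel b3]
    rw [h4, h3]
    ring
  have g2 : En ν (fun w => (T1 w.1, (T1 w.1 + T2 w.2, S w.1)))
      ≤ En μ (fun ω => (T1 ω, S ω)) + En μ (fun ω => (T2 ω, S ω)) - En μ S := by
    have h3 := submod hpr (fun w => T1 w.1) (fun w => T2 w.2) (fun w => S w.1)
    have h4 : En ν (fun w => (T1 w.1, S w.1)) = En μ (fun ω => (T1 ω, S ω)) :=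
      mf.En (fun ω => (T1 ω, S ω))
    have h5 : En ν (fun w => (T2 w.2, S w.1)) = En μ (fun ω => (T2 ω, S ω)) := by
      rw [← ms.En (fun ω => (T2 ω, S ω))]
      refine En_congr_supp hpr.nn (fun w w' hw hw' => ?_)
      simp only [Prod.mk.injEq, (hsupp w hw).2, (hsupp w' hw').2]
    have h6 : En ν (fun w => (T1 w.1, (T1 w.1 + T2 w.2, S w.1)))
        = En ν (fun w => (T1 w.1, T2 w.2, S w.1)) :=
      En_bij _ (fun t : G × (G × γ) => (t.1, t.2.1 - t.1, t.2.2))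
        (fun t : G × G × γ => (t.1, (t.1 + t.2.1, t.2.2))) (fun w => by simp) (fun w => by simp)
    rw [f1, h4, h5] at h3
    rw [h6]
    linarith
  have g3 : En ν (fun w => (T1 w.2, (T1 w.1 + T2 w.2, S w.1)))
      ≤ En μ (fun ω => (T1 ω, S ω)) + En μ (fun ω => (T2 ω, S ω)) - En μ S := by
    have h3 := submod hpr (fun w => T1 w.2) (fun w => T2 w.1) (fun w => S w.1)
    have h4 : En ν (fun w => (T2 w.1, S w.1)) = En μ (fun ω => (T2 ω, S ω)) :=
      mf.En (fun ω => (T2 ω, S ω))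
    have h5 : En ν (fun w => (T1 w.2, S w.1)) = En μ (fun ω => (T1 ω, S ω)) := by
      rw [← ms.En (fun ω => (T1 ω, S ω))]
      refine En_congr_supp hpr.nn (fun w w' hw hw' => ?_)
      simp only [Prod.mk.injEq, (hsupp w hw).2, (hsupp w' hw').2]
    have hrel : ∀ w : Ω × Ω, 0 < ν w → T1 w.1 + T2 w.2 = T1 w.2 + T2 w.1 := by
      intro w hw
      have h6 : T1 w.2 + T2 w.2 = T1 w.1 + T2 w.1 := by rw [hT, hT]; exact (hsupp w hw).1
      have h7 : T1 w.1 + T2 w.2 = T1 w.2 + T2 w.1 + (T1 w.1 + T1 w.1) := by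
        calc T1 w.1 + T2 w.2 = T1 w.1 + T2 w.2 + (T1 w.2 + T1 w.2) := by rw [h2, add_zero]
          _ = T1 w.1 + (T1 w.2 + T2 w.2) + T1 w.2 := by abel
          _ = T1 w.1 + (T1 w.1 + T2 w.1) + T1 w.2 := by rw [h6]
          _ = _ := by abel
      rw [h7, h2, add_zero]
    have h6 : En ν (fun w => (T1 w.2, (T1 w.1 + T2 w.2, S w.1)))
        = En ν (fun w => (T1 w.2, T2 w.1, S w.1)) := by
      refine En_congr_supp hpr.nn (fun w w' hw hw' => ?_)
      simp only [Prod.mk.injEq, hrel w hw, hrel w' hw']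
      constructor
      · rintro ⟨b1, b2, b3⟩
        rw [b1] at b2
        exact ⟨b1, add_left_cancel b2, b3⟩
      · rintro ⟨b1, b2, b3⟩
        exact ⟨b1, by rw [b1, b2], b3⟩
    rw [f1, h4, h5] at h3
    rw [h6]
    linarith
  have g4 : En ν (fun w => (T1 w.1 + T2 w.2, (T3 w.1, S w.1)))
      = En ν (fun w => (T1 w.1 + T2 w.2, T3 w.1, S w.1)) := rfl
  rw [g1] at s2
  rw [g4]
  linarith

/-- the endgame inequality for one ordering -/
theorem endgame {p0 q0 p q : G → ℝ} (hm : Mn p0 q0 p q) (h0 : Pr p0) (h0' : Pr q0)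
    (h2 : ∀ x : G, x + x = 0) {μ : Ω → ℝ} (hμ : Pr μ) (T1 T2 T3 : Ω → G)
    (hT : ∀ ω, T1 ω + T2 ω = T3 ω) (S : Ω → γ) (k E1 E2 E3 s P Q : ℝ)
    (hk1 : En μ (fun ω => (T1 ω, (T3 ω, S ω))) = k) (hk2 : En μ (fun ω => (T2 ω, (T3 ω, S ω))) = k)
    (hE1 : En μ (fun ω => (T1 ω, S ω)) = E1) (hE2 : En μ (fun ω => (T2 ω, S ω)) = E2)
    (hE3 : En μ (fun ω => (T3 ω, S ω)) = E3) (hs : En μ S = s)
    (hP : dc p0 μ T1 S ≤ P) (hQ : dc q0 μ T2 S ≤ Q) :
    tau p0 q0 p q ≤ 2 * (E1 + E2 - k - s) + 2 * E3 - s - k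
      + 1 / 9 * (P + (E1 + E3 - k - s) / 2) + 1 / 9 * (Q + (E2 + E3 - k - s) / 2) := by
  have h1 := min_diag hm h0 h0' hμ T1 T2 (fun ω => (T3 ω, S ω))
  have h3 := bsg_ent h2 hμ T1 T2 T3 hT S
  have h4 := dc_pair_le hμ h0 T1 T3 S
  have h5 := dc_pair_le hμ h0' T2 T3 S
  rw [hk1, hE1, hE3, hs] at h4
  rw [hk2, hE2, hE3, hs] at h5
  rw [hk1, hE1, hE2, hE3, hs] at h3
  rw [hk1, hk2, hE3] at h1
  linarith

end PFR44
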