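import Pool.Agent.Helper44.PFR.Est

set_option autoImplicit false
set_option linter.unusedSectionVars false

open scoped BigOperators
open Classical

namespace PFR44

variable {Ω Ω' Ω₁ Ω₂ α β γ δ : Type} [Fintype Ω] [Fintype Ω'] [Fintype Ω₁] [Fintype Ω₂]
variable {G : Type} [AddCommGroup G] [Fintype G]

/-- the first inequality, for sums -/
lemma m1 {p0 q0 p q : G → ℝ} (hm : Mn p0 q0 p q) (h0 : Pr p0) (h0' : Pr q0) {r3 r4 : G → ℝ}
    (h3 : Pr r3) (h4 : Pr r4) :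
    tau p0 q0 p q ≤ Hl (cv (cv p r3) (cv q r4)) - Hl (cv p r3) / 2 - Hl (cv q r4) / 2
      + 1 / 9 * (dd p0 p + (Hl (cv p r3) - Hl p) / 2)
      + 1 / 9 * (dd q0 q + (Hl (cv q r4) - Hl q) / 2) := by
  have h5 := hm.min _ _ (hm.hp.cv h3) (hm.hq.cv h4)
  have h6 := dd_cv_le h0 hm.hp h3
  have h7 := dd_cv_le h0' hm.hq h4
  unfold tau at h5 ⊢
  nth_rewrite 4 [dd] at h5
  linarith

lemma law_prd_fst {p r : G → ℝ} (hr : Pr r) : law (prd p r) (fun w => w.1) = p := by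
  have h1 := (mp_fst (μ := p) hr).law id
  refine h1.trans ?_
  funext x
  unfold law
  simp [id]

/-- the second inequality, for fibres -/
lemma m2 {p0 q0 p q : G → ℝ} (hm : Mn p0 q0 p q) (h0 : Pr p0) (h0' : Pr q0) {r3 r4 : G → ℝ}
    (h3 : Pr r3) (h4 : Pr r4) :
    tau p0 q0 p q ≤ (En (prd (prd p r3) (prd q r4))
        (fun w => (w.1.1 + w.2.1, (w.1.1 + w.1.2, w.2.1 + w.2.2)))
        - Hl (cv p r3) - Hl (cv q r4))
      - (Hl p + Hl r3 - Hl (cv p r3)) / 2 - (Hl q + Hl r4 - Hl (cv q r4)) / 2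
      + 1 / 9 * (dd p0 p + (Hl (cv p r3) - Hl r3) / 2)
      + 1 / 9 * (dd q0 q + (Hl (cv q r4) - Hl r4) / 2) := by
  have h5 := min_prod hm h0 h0' (hm.hp.prd h3) (hm.hq.prd h4) (fun w => w.1)
    (fun w => w.1 + w.2) (fun w => w.1) (fun w => w.1 + w.2)
  have e : ∀ {p r : G → ℝ}, Pr p → Pr r → En (prd p r) (fun w => (w.1, w.1 + w.2)) = Hl p + Hl r := by
    intro p r hp hr
    rw [Hl_eq p, Hl_eq r, ← En_prd hp hr]
    exact En_bij _ (fun t : G × G => (id t.1, id (t.2 - t.1))) (fun t : G × G => (t.1, t.1 + t.2))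
      (fun w => by simp) (fun w => by simp)
  have e' : ∀ {p r : G → ℝ}, En (prd p r) (fun w => w.1 + w.2) = Hl (cv p r) := by
    intro p r; rw [En_law]; rfl
  have d1 := dc_le (hm.hp.prd h3) h0 (fun w => w.1) (fun w => w.1 + w.2)
  have d2 := dc_le (hm.hq.prd h4) h0' (fun w => w.1) (fun w => w.1 + w.2)
  rw [law_prd_fst h3, e hm.hp h3, e'] at d1
  rw [law_prd_fst h4, e hm.hq h4, e'] at d2
  rw [e hm.hp h3, e hm.hq h4, e', e'] at h5
  have d3 : dd p0 p = Hl (cv p0 p) - Hl p0 / 2 - Hl p / 2 := rfl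
  have d4 : dd q0 q = Hl (cv q0 q) - Hl q0 / 2 - Hl q / 2 := rfl
  rw [d3, d4]
  linarith

/-- the rearrangement `((x1, x2), (x3, x4)) ↦ ((x1, x4), (x2, x3))` -/
def e14 : (G × G) × (G × G) ≃ (G × G) × (G × G) where
  toFun w := ((w.1.1, w.2.2), (w.1.2, w.2.1))
  invFun w := ((w.1.1, w.2.1), (w.2.2, w.1.2))
  left_inv _ := rfl
  right_inv _ := rfl

/-- the rearrangement `((x1, x2), (x3, x4)) ↦ ((x1, x3), (x2, x4))` -/
def e13 : (G × G) × (G × G) ≃ (G × G) × (G × G) where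
  toFun w := ((w.1.1, w.2.1), (w.1.2, w.2.2))
  invFun w := ((w.1.1, w.2.1), (w.1.2, w.2.2))
  left_inv _ := rfl
  right_inv _ := rfl

/-- The distance of a minimiser is zero. -/
theorem min_zero {p0 q0 p q : G → ℝ} (hm : Mn p0 q0 p q) (h0 : Pr p0) (h0' : Pr q0)
    (h2 : ∀ x : G, x + x = 0) : dd p q ≤ 0 := by
  have hp := hm.hp
  have hq := hm.hq
  set μ : (G × G) × (G × G) → ℝ := prd (prd p q) (prd p q) with hμ
  have hpr : Pr μ := (hp.prd hq).prd (hp.prd hq)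
  have m14 : Mp e14 μ (prd (prd p q) (prd q p)) := Mp.of_equiv _ (fun w => by
    rw [hμ]; unfold prd
    change p w.1.1 * q w.1.2 * (p w.2.1 * q w.2.2) = p w.1.1 * q w.2.2 * (q w.1.2 * p w.2.1)
    ring)
  have m13 : Mp e13 μ (prd (prd p p) (prd q q)) := Mp.of_equiv _ (fun w => by
    rw [hμ]; unfold prd
    change p w.1.1 * q w.1.2 * (p w.2.1 * q w.2.2) = p w.1.1 * p w.2.1 * (q w.1.2 * q w.2.2)
    ring)
  set s : ℝ := En μ (fun w => w.1.1 + w.1.2 + w.2.1 + w.2.2) with hs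
  set k : ℝ := En μ (fun w => (w.1.1 + w.1.2, (w.1.1 + w.2.2, w.1.2 + w.2.1))) with hk
  have e' : ∀ {p r : G → ℝ}, Hl (cv p r) = En (prd p r) (fun w => w.1 + w.2) := by
    intro p r; rw [En_law]; rfl
  have hqp : cv q p = cv p q := cv_comm q p
  -- the two pairs of inequalities
  have a1 := m1 hm h0 h0' hq hp
  have a2 := m2 hm h0 h0' hq hp
  have b1 := m1 hm h0 h0' hp hq
  have b2 := m2 hm h0 h0' hp hq
  have s1 : Hl (cv (cv p q) (cv q p)) = s := by
    have h3 : Hl (cv (cv p q) (cv q p)) = En (prd (prd p q) (prd q p))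
        (fun w => (w.1.1 + w.1.2) + (w.2.1 + w.2.2)) :=
      Hl_cv_law (prd p q) (prd q p) (fun w => w.1 + w.2) (fun w => w.1 + w.2)
    rw [h3, ← m14.En, hs]
    congr 1
    funext w
    change w.1.1 + w.2.2 + (w.1.2 + w.2.1) = _
    abel
  have s2 : Hl (cv (cv p p) (cv q q)) = s := by
    have h3 : Hl (cv (cv p p) (cv q q)) = En (prd (prd p p) (prd q q))
        (fun w => (w.1.1 + w.1.2) + (w.2.1 + w.2.2)) :=
      Hl_cv_law (prd p p) (prd q q) (fun w => w.1 + w.2) (fun w => w.1 + w.2)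
    rw [h3, ← m13.En, hs]
    congr 1
    funext w
    change w.1.1 + w.2.1 + (w.1.2 + w.2.2) = _
    abel
  have k1 : En (prd (prd p q) (prd q p))
        (fun w => (w.1.1 + w.2.1, (w.1.1 + w.1.2, w.2.1 + w.2.2))) = k := by
    rw [← m14.En]
    rfl
  have k2 : En (prd (prd p p) (prd q q))
        (fun w => (w.1.1 + w.2.1, (w.1.1 + w.1.2, w.2.1 + w.2.2))) = k := by
    rw [← m13.En, hk]
    refine En_bij _ (fun t : G × (G × G) => (t.1, (t.1 + t.2.2, t.1 + t.2.1)))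
      (fun t : G × (G × G) => (t.1, (t.1 + t.2.2, t.1 + t.2.1))) (fun w => ?_) (fun w => ?_)
    · change (w.1.1 + w.1.2, (w.1.1 + w.2.2, w.1.2 + w.2.1))
        = (w.1.1 + w.1.2, (w.1.1 + w.1.2 + (w.1.2 + w.2.2), w.1.1 + w.1.2 + (w.1.1 + w.2.1)))
      have h3 : w.1.1 + w.1.2 + (w.1.2 + w.2.2) = w.1.1 + w.2.2 + (w.1.2 + w.1.2) := by abel
      have h4 : w.1.1 + w.1.2 + (w.1.1 + w.2.1) = w.1.2 + w.2.1 + (w.1.1 + w.1.1) := by abel
      rw [h3, h4, h2, h2, add_zero, add_zero]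
    · change (w.1.1 + w.1.2, (w.1.1 + w.2.1, w.1.2 + w.2.2))
        = (w.1.1 + w.1.2, (w.1.1 + w.1.2 + (w.1.2 + w.2.1), w.1.1 + w.1.2 + (w.1.1 + w.2.2)))
      have h3 : w.1.1 + w.1.2 + (w.1.2 + w.2.1) = w.1.1 + w.2.1 + (w.1.2 + w.1.2) := by abel
      have h4 : w.1.1 + w.1.2 + (w.1.1 + w.2.2) = w.1.2 + w.2.2 + (w.1.1 + w.1.1) := by abel
      rw [h3, h4, h2, h2, add_zero, add_zero]
  rw [s1, hqp] at a1
  rw [k1, hqp] at a2
  rw [s2] at b1
  rw [k2] at b2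
  -- the joint entropies with `S`
  let U : (G × G) × (G × G) → G := fun w => w.1.1 + w.1.2
  let Vv : (G × G) × (G × G) → G := fun w => w.1.2 + w.2.1
  let W : (G × G) × (G × G) → G := fun w => w.1.1 + w.2.1
  let S : (G × G) × (G × G) → G := fun w => w.1.1 + w.1.2 + w.2.1 + w.2.2
  have hUV : ∀ w, U w + Vv w = W w := by
    intro w
    change w.1.1 + w.1.2 + (w.1.2 + w.2.1) = w.1.1 + w.2.1
    have h3 : w.1.1 + w.1.2 + (w.1.2 + w.2.1) = w.1.1 + w.2.1 + (w.1.2 + w.1.2) := by abel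
    rw [h3, h2, add_zero]
  have hVW : ∀ w, Vv w + W w = U w := by
    intro w
    rw [← hUV w]
    have h3 : Vv w + (U w + Vv w) = U w + (Vv w + Vv w) := by abel
    rw [h3, h2, add_zero]
  have hWU : ∀ w, W w + U w = Vv w := by
    intro w
    rw [← hUV w]
    have h3 : U w + Vv w + U w = Vv w + (U w + U w) := by abel
    rw [h3, h2, add_zero]
  have eU : En μ (fun w => (U w, S w)) = 2 * Hl (cv p q) := by
    have h3 := En_prd (hp.prd hq) (hp.prd hq) (fun w : G × G => w.1 + w.2) (fun w : G × G => w.1 + w.2)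
    rw [← e'] at h3
    rw [two_mul, ← h3]
    refine En_bij _ (fun t : G × G => (t.1, t.2 - t.1)) (fun t : G × G => (t.1, t.1 + t.2))
      (fun w => ?_) (fun w => ?_)
    · change (w.1.1 + w.1.2, w.2.1 + w.2.2)
        = (w.1.1 + w.1.2, w.1.1 + w.1.2 + w.2.1 + w.2.2 - (w.1.1 + w.1.2))
      congr 1; abel
    · change (w.1.1 + w.1.2, w.1.1 + w.1.2 + w.2.1 + w.2.2)
        = (w.1.1 + w.1.2, w.1.1 + w.1.2 + (w.2.1 + w.2.2))
      congr 1; abel
  have eV : En μ (fun w => (Vv w, S w)) = 2 * Hl (cv p q) := by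
    have h3 := En_prd (hp.prd hq) (hq.prd hp) (fun w : G × G => w.1 + w.2) (fun w : G × G => w.1 + w.2)
    rw [← e', ← e', hqp, ← m14.En] at h3
    rw [two_mul, ← h3]
    refine En_bij _ (fun t : G × G => (t.2 - t.1, t.1)) (fun t : G × G => (t.2, t.1 + t.2))
      (fun w => ?_) (fun w => ?_)
    · change (w.1.1 + w.2.2, w.1.2 + w.2.1)
        = (w.1.1 + w.1.2 + w.2.1 + w.2.2 - (w.1.2 + w.2.1), w.1.2 + w.2.1)
      congr 1; abel
    · change (w.1.2 + w.2.1, w.1.1 + w.1.2 + w.2.1 + w.2.2)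
        = (w.1.2 + w.2.1, w.1.1 + w.2.2 + (w.1.2 + w.2.1))
      congr 1; abel
  have eW' := En_prd (hp.prd hp) (hq.prd hq) (fun w : G × G => w.1 + w.2) (fun w : G × G => w.1 + w.2)
  rw [← e', ← e', ← m13.En] at eW'
  have eW : En μ (fun w => (W w, S w)) = Hl (cv p p) + Hl (cv q q) := by
    rw [← eW']
    refine En_bij _ (fun t : G × G => (t.1, t.2 - t.1)) (fun t : G × G => (t.1, t.1 + t.2))
      (fun w => ?_) (fun w => ?_)
    · change (w.1.1 + w.2.1, w.1.2 + w.2.2)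
        = (w.1.1 + w.2.1, w.1.1 + w.1.2 + w.2.1 + w.2.2 - (w.1.1 + w.2.1))
      congr 1; abel
    · change (w.1.1 + w.2.1, w.1.1 + w.1.2 + w.2.1 + w.2.2)
        = (w.1.1 + w.2.1, w.1.1 + w.2.1 + (w.1.2 + w.2.2))
      congr 1; abel
  have hkk : En μ (fun w => (U w, (W w, S w))) = k := by
    rw [hk]
    refine En_bij _ (fun t : G × (G × G) => (t.1, (t.2.2 + (t.1 + t.2.1), t.1 + t.2.1)))
      (fun t : G × (G × G) => (t.1, (t.1 + t.2.2, t.2.1 + t.2.2))) (fun w => ?_) (fun w => ?_)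
    · change (w.1.1 + w.1.2, (w.1.1 + w.2.2, w.1.2 + w.2.1))
        = (w.1.1 + w.1.2, (w.1.1 + w.1.2 + w.2.1 + w.2.2 + (w.1.1 + w.1.2 + (w.1.1 + w.2.1)),
          w.1.1 + w.1.2 + (w.1.1 + w.2.1)))
      have h3 : w.1.1 + w.1.2 + (w.1.1 + w.2.1) = w.1.2 + w.2.1 := by
        have h4 : w.1.1 + w.1.2 + (w.1.1 + w.2.1) = w.1.2 + w.2.1 + (w.1.1 + w.1.1) := by abel
        rw [h4, h2, add_zero]
      have h5 : w.1.1 + w.1.2 + w.2.1 + w.2.2 + (w.1.2 + w.2.1) = w.1.1 + w.2.2 := by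
        have h4 : w.1.1 + w.1.2 + w.2.1 + w.2.2 + (w.1.2 + w.2.1)
            = w.1.1 + w.2.2 + (w.1.2 + w.1.2) + (w.2.1 + w.2.1) := by abel
        rw [h4, h2, h2, add_zero, add_zero]
      rw [h3, h5]
    · change (w.1.1 + w.1.2, (w.1.1 + w.2.1, w.1.1 + w.1.2 + w.2.1 + w.2.2))
        = (w.1.1 + w.1.2, (w.1.1 + w.1.2 + (w.1.2 + w.2.1), w.1.1 + w.2.2 + (w.1.2 + w.2.1)))
      have h3 : w.1.1 + w.1.2 + (w.1.2 + w.2.1) = w.1.1 + w.2.1 + (w.1.2 + w.1.2) := by abel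
      have h4 : w.1.1 + w.2.2 + (w.1.2 + w.2.1) = w.1.1 + w.1.2 + w.2.1 + w.2.2 := by abel
      rw [h3, h2, add_zero, h4]
  -- all six orderings have the same entropy
  have hgen : ∀ (T1 T2 T3 : (G × G) × (G × G) → G), (∀ w, T1 w + T2 w = T3 w) →
      En μ (fun w => (T1 w, (T3 w, S w))) = En μ (fun w => (T1 w, (T2 w, S w))) := by
    intro T1 T2 T3 hT
    refine En_bij _ (fun t : G × (G × G) => (t.1, (t.2.1 - t.1, t.2.2)))
      (fun t : G × (G × G) => (t.1, (t.1 + t.2.1, t.2.2))) (fun w => ?_) (fun w => ?_)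
    · simp only [← hT]
      congr 2; abel
    · simp only [← hT]
  have hsw : ∀ (T1 T2 : (G × G) × (G × G) → G),
      En μ (fun w => (T1 w, (T2 w, S w))) = En μ (fun w => (T2 w, (T1 w, S w))) := by
    intro T1 T2
    exact En_bij _ (fun t : G × (G × G) => (t.2.1, (t.1, t.2.2)))
      (fun t : G × (G × G) => (t.2.1, (t.1, t.2.2))) (fun w => rfl) (fun w => rfl)
  have kUV : En μ (fun w => (U w, (Vv w, S w))) = k := by rw [← hgen U Vv W hUV]; exact hkk
  have kVW : En μ (fun w => (Vv w, (W w, S w))) = k := by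
    rw [hgen Vv U W (fun w => by rw [add_comm]; exact hUV w), hsw]; exact kUV
  have kVU : En μ (fun w => (Vv w, (U w, S w))) = k := by rw [hsw]; exact kUV
  have kWU : En μ (fun w => (W w, (U w, S w))) = k := by rw [hsw]; exact hkk
  have kWV : En μ (fun w => (W w, (Vv w, S w))) = k := by rw [hsw]; exact kVW
  -- the distances to the reference laws
  have lU : law μ U = cv p q := by
    have h3 := (mp_fst (μ := prd p q) (hp.prd hq)).law (fun w : G × G => w.1 + w.2)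
    exact h3
  have lV : law μ Vv = cv p q := by
    have h3 : law μ Vv = law (prd (prd p q) (prd q p)) (fun w => w.2.1 + w.2.2) := by
      rw [← m14.law]; rfl
    rw [h3, ← hqp]
    exact (mp_snd (μ' := prd q p) (hp.prd hq)).law (fun w : G × G => w.1 + w.2)
  have lW : law μ W = cv p p := by
    have h3 : law μ W = law (prd (prd p p) (prd q q)) (fun w => w.1.1 + w.1.2) := by
      rw [← m13.law]; rfl
    rw [h3]
    exact (mp_fst (μ := prd p p) (hq.prd hq)).law (fun w : G × G => w.1 + w.2)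
  let W' : (G × G) × (G × G) → G := fun w => w.1.2 + w.2.2
  have lW' : law μ W' = cv q q := by
    have h3 : law μ W' = law (prd (prd p p) (prd q q)) (fun w => w.2.1 + w.2.2) := by
      rw [← m13.law]; rfl
    rw [h3]
    exact (mp_snd (μ' := prd q q) (hp.prd hp)).law (fun w : G × G => w.1 + w.2)
  have hsS : En μ S = s := rfl
  have r1 := dd_cv_le h0 hp hq
  have r2 := dd_cv_le h0' hq hp
  have r3 := dd_cv_le h0 hp hp
  have r4 := dd_cv_le h0' hq hq
  rw [hqp] at r2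
  have dpU := dc_le hpr h0 U S
  rw [lU, eU, hsS] at dpU
  have dqU := dc_le hpr h0' U S
  rw [lU, eU, hsS] at dqU
  have dpV := dc_le hpr h0 Vv S
  rw [lV, eV, hsS] at dpV
  have dqV := dc_le hpr h0' Vv S
  rw [lV, eV, hsS] at dqV
  have dpW := dc_le hpr h0 W S
  rw [lW, eW, hsS] at dpW
  have dqW := dc_le hpr h0' W' S
  have hWW' : ∀ w, W' w = W w + S w := by
    intro w
    change w.1.2 + w.2.2 = w.1.1 + w.2.1 + (w.1.1 + w.1.2 + w.2.1 + w.2.2)
    have h3 : w.1.1 + w.2.1 + (w.1.1 + w.1.2 + w.2.1 + w.2.2)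
        = w.1.2 + w.2.2 + (w.1.1 + w.1.1) + (w.2.1 + w.2.1) := by abel
    rw [h3, h2, h2, add_zero, add_zero]
  have eW2 : En μ (fun w => (W' w, S w)) = Hl (cv p p) + Hl (cv q q) := by
    rw [← eW]
    refine En_bij _ (fun t : G × G => (t.1 - t.2, t.2)) (fun t : G × G => (t.1 + t.2, t.2))
      (fun w => ?_) (fun w => ?_)
    · simp only [hWW']; congr 1; abel
    · simp only [hWW']
  rw [lW', eW2, hsS, dc_shift hWW'] at dqW
  have x1 : Hl (cv p0 (cv p q)) = dd p0 (cv p q) + Hl p0 / 2 + Hl (cv p q) / 2 := by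
    unfold dd; ring
  have x2 : Hl (cv q0 (cv p q)) = dd q0 (cv p q) + Hl q0 / 2 + Hl (cv p q) / 2 := by
    unfold dd; ring
  have x3 : Hl (cv p0 (cv p p)) = dd p0 (cv p p) + Hl p0 / 2 + Hl (cv p p) / 2 := by
    unfold dd; ring
  have x4 : Hl (cv q0 (cv q q)) = dd q0 (cv q q) + Hl q0 / 2 + Hl (cv q q) / 2 := by
    unfold dd; ring
  rw [x1] at dpU dpV
  rw [x2] at dqU dqV
  rw [x3] at dpW
  rw [x4] at dqW
  have g1 := endgame hm h0 h0' h2 hpr U Vv W hUV S k _ _ _ s (dd p0 p + (s - Hl p) / 2)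
    (dd q0 q + (s - Hl q) / 2) hkk kVW eU eV eW hsS (by linarith) (by linarith)
  have g2 := endgame hm h0 h0' h2 hpr Vv W U hVW S k _ _ _ s (dd p0 p + (s - Hl p) / 2)
    (dd q0 q + (s + Hl (cv q q) - Hl (cv p p) - Hl q) / 2) kVU kWU eV eW eU hsS (by linarith)
    (by linarith)
  have g3 := endgame hm h0 h0' h2 hpr W U Vv hWU S k _ _ _ s
    (dd p0 p + (s + Hl (cv p p) - Hl (cv q q) - Hl p) / 2)
    (dd q0 q + (s - Hl q) / 2) kWV kUV eW eU eV hsS (by linarith) (by linarith)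
  have ht : tau p0 q0 p q = (Hl (cv p q) - Hl p / 2 - Hl q / 2) + 1 / 9 * dd p0 p
      + 1 / 9 * dd q0 q := rfl
  rw [ht] at a1 a2 b1 b2 g1 g2 g3
  have hd : dd p q = Hl (cv p q) - Hl p / 2 - Hl q / 2 := rfl
  rw [hd]
  linarith

end PFR44
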