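import Pool.Agent.Helper44.PFR.Cond

set_option autoImplicit false
set_option linter.unusedSectionVars false

open scoped BigOperators
open Classical

namespace PFR44

variable {Ω Ω' Ω₁ Ω₂ α β γ δ : Type} [Fintype Ω] [Fintype Ω'] [Fintype Ω₁] [Fintype Ω₂]
variable {G : Type} [AddCommGroup G] [Fintype G]

/-- convolution of laws -/
noncomputable def cv (p q : G → ℝ) : G → ℝ := law (prd p q) (fun w : G × G => w.1 + w.2)

/-- Ruzsa distance of laws (the group has exponent two) -/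
noncomputable def dd (p q : G → ℝ) : ℝ := Hl (cv p q) - Hl p / 2 - Hl q / 2

/-- the functional to be minimised -/
noncomputable def tau (p0 q0 p q : G → ℝ) : ℝ := dd p q + 1 / 9 * dd p0 p + 1 / 9 * dd q0 q

lemma Pr.cv {p q : G → ℝ} (hp : Pr p) (hq : Pr q) : Pr (cv p q) := (hp.prd hq).law _

/-- minimisers -/
structure Mn (p0 q0 p q : G → ℝ) : Prop where
  hp : Pr p
  hq : Pr q
  min : ∀ p' q', Pr p' → Pr q' → tau p0 q0 p q ≤ tau p0 q0 p' q'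

lemma continuous_Hl {α : Type} [Fintype α] : Continuous (fun p : α → ℝ => Hl p) := by
  unfold Hl
  exact continuous_finsetSum _ (fun i _ => Real.continuous_negMulLog.comp (continuous_apply i))

lemma continuous_cv : Continuous (fun z : (G → ℝ) × (G → ℝ) => cv z.1 z.2) := by
  unfold cv law prd
  refine continuous_pi (fun x => continuous_finsetSum _ (fun w _ => ?_))
  by_cases h : w.1 + w.2 = x
  · simp only [if_pos h]
    exact ((continuous_apply w.1).comp continuous_fst).mul ((continuous_apply w.2).comp continuous_snd)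
  · simp only [if_neg h]
    exact continuous_const

lemma continuous_dd : Continuous (fun z : (G → ℝ) × (G → ℝ) => dd z.1 z.2) := by
  unfold dd
  exact ((continuous_Hl.comp continuous_cv).sub ((continuous_Hl.comp continuous_fst).div_const 2)).sub
    ((continuous_Hl.comp continuous_snd).div_const 2)

theorem exists_min (p0 q0 : G → ℝ) : ∃ p q, Mn p0 q0 p q := by
  have h1 : IsCompact ((stdSimplex ℝ G) ×ˢ (stdSimplex ℝ G)) :=
    (isCompact_stdSimplex ℝ G).prod (isCompact_stdSimplex ℝ G)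
  have h2 : ((stdSimplex ℝ G) ×ˢ (stdSimplex ℝ G)).Nonempty :=
    ⟨(Pi.single 0 1, Pi.single 0 1), single_mem_stdSimplex ℝ 0, single_mem_stdSimplex ℝ 0⟩
  have h3 : Continuous (fun z : (G → ℝ) × (G → ℝ) => tau p0 q0 z.1 z.2) := by
    have c1 : Continuous (fun z : (G → ℝ) × (G → ℝ) => (p0, z.1)) :=
      continuous_const.prodMk continuous_fst
    have c2 : Continuous (fun z : (G → ℝ) × (G → ℝ) => (q0, z.2)) :=
      continuous_const.prodMk continuous_snd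
    have d1 : Continuous (fun z : (G → ℝ) × (G → ℝ) => dd p0 z.1) :=
      Continuous.comp (g := fun z : (G → ℝ) × (G → ℝ) => dd z.1 z.2)
        (f := fun z : (G → ℝ) × (G → ℝ) => (p0, z.1)) continuous_dd c1
    have d2 : Continuous (fun z : (G → ℝ) × (G → ℝ) => dd q0 z.2) :=
      Continuous.comp (g := fun z : (G → ℝ) × (G → ℝ) => dd z.1 z.2)
        (f := fun z : (G → ℝ) × (G → ℝ) => (q0, z.2)) continuous_dd c2
    unfold tau
    exact (continuous_dd.add (continuous_const.mul d1)).add (continuous_const.mul d2)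
  obtain ⟨z, hz, hmin⟩ := h1.exists_isMinOn h2 h3.continuousOn
  refine ⟨z.1, z.2, ⟨hz.1.1, hz.1.2⟩, ⟨hz.2.1, hz.2.2⟩, fun p' q' hp' hq' => ?_⟩
  exact hmin (a := (p', q')) ⟨⟨hp'.nn, hp'.one⟩, ⟨hq'.nn, hq'.one⟩⟩

/-- entropy of a sum of independent variables -/
lemma Hl_cv_law (m : Ω → ℝ) (m' : Ω' → ℝ) (A : Ω → G) (B : Ω' → G) :
    Hl (cv (law m A) (law m' B)) = En (prd m m') (fun w => A w.1 + B w.2) := by
  unfold cv
  rw [← En_law]
  exact (((mp_law m A).prd (mp_law m' B)).En (fun w : G × G => w.1 + w.2)).symm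

lemma mp_id (p : Ω → ℝ) : Mp id p p := by
  intro ω
  simp [id]

lemma Hl_cv_law' (p0 : G → ℝ) (m' : Ω' → ℝ) (B : Ω' → G) :
    Hl (cv p0 (law m' B)) = En (prd p0 m') (fun w => w.1 + B w.2) := by
  unfold cv
  rw [← En_law]
  exact (((mp_id p0).prd (mp_law m' B)).En (fun w : G × G => w.1 + w.2)).symm

/-- conditional distance to a reference law -/
noncomputable def dc (p0 : G → ℝ) (μ : Ω → ℝ) (A : Ω → G) (Z : Ω → γ) : ℝ :=
  En (prd p0 μ) (fun w => (w.1 + A w.2, Z w.2)) - En μ Z - Hl p0 / 2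
    - (En μ (fun ω => (A ω, Z ω)) - En μ Z) / 2

lemma avg_const {μ : Ω → ℝ} (h : Pr μ) (c : ℝ) : ∑ ω, μ ω * c = c := by
  rw [← Finset.sum_mul, h.one, one_mul]

lemma cm_unit {p0 : Ω → ℝ} (h : Pr p0) (x : Ω) : cm p0 (fun _ => ()) x = p0 := by
  funext y
  unfold cm cell
  simp [h.one]

lemma dc_avg {μ : Ω → ℝ} (hμ : Pr μ) {p0 : G → ℝ} (h0 : Pr p0) (A : Ω → G) (Z : Ω → γ) :
    ∑ ω, μ ω * dd p0 (law (cm μ Z ω) A) = dc p0 μ A Z := by
  have h1 := condH (h0.prd hμ) (fun w : G × Ω => w.1 + A w.2) (fun w => ((), Z w.2))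
  have h2 : ∀ w : G × Ω, cm (prd p0 μ) (fun w => ((), Z w.2)) w = prd p0 (cm μ Z w.2) := by
    intro w
    have h3 := cm_prd p0 μ (fun _ => ()) Z w
    rw [cm_unit h0] at h3
    exact h3
  simp only [h2] at h1
  rw [(mp_snd h0).sum (fun ω => En (prd p0 (cm μ Z ω)) (fun w : G × Ω => w.1 + A w.2))] at h1
  have h4 : En (prd p0 μ) (fun w => (w.1 + A w.2, ((), Z w.2)))
      = En (prd p0 μ) (fun w => (w.1 + A w.2, Z w.2)) := En_congr _ (fun w w' => by simp)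
  have h5 : En (prd p0 μ) (fun w => ((), Z w.2)) = En μ Z := by
    rw [← (mp_snd (μ' := μ) h0).En Z]
    exact En_congr _ (fun w w' => by simp)
  rw [h4, h5] at h1
  have h6 : ∀ ω, μ ω * dd p0 (law (cm μ Z ω) A)
      = μ ω * En (prd p0 (cm μ Z ω)) (fun w : G × Ω => w.1 + A w.2) - μ ω * (Hl p0 / 2)
        - (μ ω * En (cm μ Z ω) A) / 2 := by
    intro ω
    unfold dd
    rw [Hl_cv_law', ← En_law]
    ring
  simp only [h6]
  rw [Finset.sum_sub_distrib, Finset.sum_sub_distrib, h1, avg_const hμ, ← Finset.sum_div, condH hμ]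
  unfold dc
  ring

/-- averaging the minimality -/
lemma min_avg {p0 q0 p q : G → ℝ} (hm : Mn p0 q0 p q) {ν : Ω → ℝ} (hν : Pr ν)
    (P Q : Ω → G → ℝ) (hP : ∀ ω, 0 < ν ω → Pr (P ω)) (hQ : ∀ ω, 0 < ν ω → Pr (Q ω)) :
    tau p0 q0 p q ≤ ∑ ω, ν ω * Hl (cv (P ω) (Q ω)) - (∑ ω, ν ω * Hl (P ω)) / 2
      - (∑ ω, ν ω * Hl (Q ω)) / 2 + 1 / 9 * ∑ ω, ν ω * dd p0 (P ω)
      + 1 / 9 * ∑ ω, ν ω * dd q0 (Q ω) := by
  have h1 : tau p0 q0 p q ≤ ∑ ω, ν ω * tau p0 q0 (P ω) (Q ω) := by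
    rw [← avg_const hν (tau p0 q0 p q)]
    exact sum_pos_le hν.nn (fun ω hω => hm.min _ _ (hP ω hω) (hQ ω hω))
  refine h1.trans (le_of_eq ?_)
  have h2 : ∀ ω, ν ω * tau p0 q0 (P ω) (Q ω) = ν ω * Hl (cv (P ω) (Q ω)) - (ν ω * Hl (P ω)) / 2
      - (ν ω * Hl (Q ω)) / 2 + 1 / 9 * (ν ω * dd p0 (P ω)) + 1 / 9 * (ν ω * dd q0 (Q ω)) := by
    intro ω
    unfold tau
    nth_rewrite 1 [dd]
    ring
  simp only [h2]
  rw [Finset.sum_add_distrib, Finset.sum_add_distrib, Finset.sum_sub_distrib,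
    Finset.sum_sub_distrib, Finset.sum_div, Finset.sum_div, Finset.mul_sum, Finset.mul_sum]

/-- minimality for independent conditionings -/
theorem min_prod {p0 q0 p q : G → ℝ} (hm : Mn p0 q0 p q) (h0 : Pr p0) (h0' : Pr q0)
    {μ₁ : Ω₁ → ℝ} {μ₂ : Ω₂ → ℝ} (h1 : Pr μ₁) (h2 : Pr μ₂) (A : Ω₁ → G) (Z₁ : Ω₁ → γ)
    (B : Ω₂ → G) (Z₂ : Ω₂ → δ) :
    tau p0 q0 p q ≤ (En (prd μ₁ μ₂) (fun w => (A w.1 + B w.2, (Z₁ w.1, Z₂ w.2)))
        - En μ₁ Z₁ - En μ₂ Z₂)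
      - (En μ₁ (fun ω => (A ω, Z₁ ω)) - En μ₁ Z₁) / 2
      - (En μ₂ (fun ω => (B ω, Z₂ ω)) - En μ₂ Z₂) / 2
      + 1 / 9 * dc p0 μ₁ A Z₁ + 1 / 9 * dc q0 μ₂ B Z₂ := by
  have hpr := h1.prd h2
  have hpos : ∀ w : Ω₁ × Ω₂, 0 < prd μ₁ μ₂ w → 0 < μ₁ w.1 ∧ 0 < μ₂ w.2 := by
    intro w hw
    unfold prd at hw
    rcases eq_or_lt_of_le (h1.nn w.1) with h3 | h3
    · rw [← h3, zero_mul] at hw; exact absurd hw (lt_irrefl _)
    · rcases eq_or_lt_of_le (h2.nn w.2) with h4 | h4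
      · rw [← h4, mul_zero] at hw; exact absurd hw (lt_irrefl _)
      · exact ⟨h3, h4⟩
  have key := min_avg hm hpr (fun w => law (cm μ₁ Z₁ w.1) A) (fun w => law (cm μ₂ Z₂ w.2) B)
    (fun w hw => (h1.cm Z₁ (hpos w hw).1).law A) (fun w hw => (h2.cm Z₂ (hpos w hw).2).law B)
  have e1 : ∑ w, prd μ₁ μ₂ w * Hl (cv (law (cm μ₁ Z₁ w.1) A) (law (cm μ₂ Z₂ w.2) B))
      = En (prd μ₁ μ₂) (fun w => (A w.1 + B w.2, (Z₁ w.1, Z₂ w.2))) - En μ₁ Z₁ - En μ₂ Z₂ := by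
    have h3 := condH hpr (fun w => A w.1 + B w.2) (fun w => (Z₁ w.1, Z₂ w.2))
    rw [En_prd h1 h2] at h3
    simp only [cm_prd] at h3
    simp only [Hl_cv_law]
    rw [h3]; ring
  have e2 : ∑ w, prd μ₁ μ₂ w * Hl (law (cm μ₁ Z₁ w.1) A)
      = En μ₁ (fun ω => (A ω, Z₁ ω)) - En μ₁ Z₁ := by
    rw [(mp_fst h2).sum (fun ω => Hl (law (cm μ₁ Z₁ ω) A)), ← condH h1]
    simp only [En_law]
  have e3 : ∑ w, prd μ₁ μ₂ w * Hl (law (cm μ₂ Z₂ w.2) B)
      = En μ₂ (fun ω => (B ω, Z₂ ω)) - En μ₂ Z₂ := by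
    rw [(mp_snd h1).sum (fun ω => Hl (law (cm μ₂ Z₂ ω) B)), ← condH h2]
    simp only [En_law]
  have e4 : ∑ w, prd μ₁ μ₂ w * dd p0 (law (cm μ₁ Z₁ w.1) A) = dc p0 μ₁ A Z₁ := by
    rw [(mp_fst h2).sum (fun ω => dd p0 (law (cm μ₁ Z₁ ω) A)), dc_avg h1 h0]
  have e5 : ∑ w, prd μ₁ μ₂ w * dd q0 (law (cm μ₂ Z₂ w.2) B) = dc q0 μ₂ B Z₂ := by
    rw [(mp_snd h1).sum (fun ω => dd q0 (law (cm μ₂ Z₂ ω) B)), dc_avg h2 h0']
  rw [e1, e2, e3, e4, e5] at key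
  exact key

/-- minimality for a common conditioning -/
theorem min_diag {p0 q0 p q : G → ℝ} (hm : Mn p0 q0 p q) (h0 : Pr p0) (h0' : Pr q0)
    {μ : Ω → ℝ} (h : Pr μ) (A B : Ω → G) (Z : Ω → γ) :
    tau p0 q0 p q ≤ (En (cic μ Z) (fun w => (A w.1 + B w.2, Z w.1)) - En μ Z)
      - (En μ (fun ω => (A ω, Z ω)) - En μ Z) / 2
      - (En μ (fun ω => (B ω, Z ω)) - En μ Z) / 2
      + 1 / 9 * dc p0 μ A Z + 1 / 9 * dc q0 μ B Z := by
  have key := min_avg hm h (fun ω => law (cm μ Z ω) A) (fun ω => law (cm μ Z ω) B)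
    (fun w hw => (h.cm Z hw).law A) (fun w hw => (h.cm Z hw).law B)
  have e1 : ∑ ω, μ ω * Hl (cv (law (cm μ Z ω) A) (law (cm μ Z ω) B))
      = En (cic μ Z) (fun w => (A w.1 + B w.2, Z w.1)) - En μ Z := by
    have h3 := condH (h.cic Z) (fun w => A w.1 + B w.2) (fun w => Z w.1)
    rw [(mp_cic_fst h Z).En Z] at h3
    simp only [cm_cic h] at h3
    rw [(mp_cic_fst h Z).sum
      (fun ω => En (prd (cm μ Z ω) (cm μ Z ω)) (fun w => A w.1 + B w.2))] at h3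
    simp only [Hl_cv_law]
    rw [h3]
  have e2 : ∀ F : Ω → G, ∑ ω, μ ω * Hl (law (cm μ Z ω) F) = En μ (fun ω => (F ω, Z ω)) - En μ Z := by
    intro F
    rw [← condH h]
    simp only [En_law]
  rw [e1, e2, e2, dc_avg h h0, dc_avg h h0'] at key
  exact key

end PFR44
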