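import Pool.Agent.Helper44.PFR.Main

set_option autoImplicit false
set_option linter.unusedSectionVars false

open scoped BigOperators
open Classical

namespace PFR44

variable {G : Type} [AddCommGroup G] [Fintype G]

lemma cv_apply (p q : G → ℝ) (z : G) : cv p q z = ∑ y, q y * p (z - y) := by
  unfold cv law prd
  rw [Fintype.sum_prod_type_right]
  refine Finset.sum_congr rfl (fun y _ => ?_)
  rw [Finset.sum_eq_single (z - y)]
  · rw [if_pos (by simp)]; ring
  · intro x _ hx
    rw [if_neg]
    intro h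
    apply hx
    rw [← h]; simp
  · intro h; exact absurd (Finset.mem_univ _) h

/-- the case of equality in `Hl p ≤ Hl (cv p q)` -/
lemma eq_case {p q : G → ℝ} (hp : Pr p) (hq : Pr q) (h : Hl (cv p q) ≤ Hl p) {y y' : G}
    (hy : 0 < q y) (hy' : 0 < q y') (z : G) : p (z - y) = p (z - y') := by
  have h1 : ∀ z, ∑ y, q y • Real.negMulLog (p (z - y)) ≤ Real.negMulLog (∑ y, q y • p (z - y)) :=
    fun z => Real.concaveOn_negMulLog.le_map_sum (fun i _ => hq.nn i) hq.one (fun i _ => hp.nn _)
  have h2 : ∑ z, ∑ y, q y • Real.negMulLog (p (z - y)) = Hl p := by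
    rw [Finset.sum_comm]
    have h3 : ∀ y, ∑ z, q y • Real.negMulLog (p (z - y)) = q y * Hl p := by
      intro y
      unfold Hl
      rw [Finset.mul_sum]
      exact Fintype.sum_equiv (Equiv.subRight y) _ _ (fun z => rfl)
    simp only [h3]
    rw [← Finset.sum_mul, hq.one, one_mul]
  have h4 : ∑ z, Real.negMulLog (∑ y, q y • p (z - y)) = Hl (cv p q) := by
    unfold Hl
    refine Finset.sum_congr rfl (fun z _ => ?_)
    rw [cv_apply]
    simp only [smul_eq_mul]
  have h5 : ∀ z ∈ Finset.univ, ∑ y, q y • Real.negMulLog (p (z - y))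
      = Real.negMulLog (∑ y, q y • p (z - y)) := by
    rw [← Finset.sum_eq_sum_iff_of_le (fun z _ => h1 z)]
    refine le_antisymm (Finset.sum_le_sum (fun z _ => h1 z)) ?_
    rw [h2, h4]; exact h
  have h6 := (Real.strictConcaveOn_negMulLog.map_sum_eq_iff_of_nonneg (t := Finset.univ)
    (w := q) (p := fun y => p (z - y)) (fun i _ => hq.nn i) hq.one (fun i _ => hp.nn _)).1
    (h5 z (Finset.mem_univ _)).symm
  exact h6 (Finset.mem_univ y) hy.ne' (Finset.mem_univ y') hy'.ne'

lemma exists_pos {p : G → ℝ} (hp : Pr p) : ∃ x, 0 < p x := by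
  by_contra h
  push Not at h
  have h1 : ∑ x, p x ≤ 0 := Finset.sum_nonpos (fun x _ => h x)
  rw [hp.one] at h1
  linarith

/-- laws at distance zero are uniform on cosets of a subgroup -/
theorem zero_struct (h2 : ∀ x : G, x + x = 0) {p q : G → ℝ} (hp : Pr p) (hq : Pr q)
    (hd : dd p q ≤ 0) : ∃ (H : AddSubgroup G) (x0 y0 : G),
      (∀ z, p z = if z + x0 ∈ H then 1 / (Fintype.card H : ℝ) else 0) ∧
      (∀ z, q z = if z + y0 ∈ H then 1 / (Fintype.card H : ℝ) else 0) := by
  have hneg : ∀ x : G, -x = x := fun x => neg_eq_of_add_eq_zero_left (h2 x)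
  have l1 := le_Hl_cv hp hq
  have l2 := le_Hl_cv hq hp
  rw [cv_comm] at l2
  unfold dd at hd
  have e1 : Hl (cv p q) ≤ Hl p := by linarith
  have e2 : Hl (cv q p) ≤ Hl q := by rw [cv_comm]; linarith
  have stab : ∀ f : G → ℝ, ∃ H : AddSubgroup G, ∀ h, h ∈ H ↔ ∀ z, f (z + h) = f z := by
    intro f
    refine ⟨{ carrier := {h | ∀ z, f (z + h) = f z}
              zero_mem' := fun z => by rw [add_zero]
              add_mem' := fun {a b} ha hb z => by rw [← add_assoc, hb, ha]
              neg_mem' := fun {a} ha z => by rw [hneg]; exact ha z }, fun h => Iff.rfl⟩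
  obtain ⟨H, hH⟩ := stab p
  obtain ⟨H', hH'⟩ := stab q
  have a1 : ∀ y y', 0 < q y → 0 < q y' → y + y' ∈ H := by
    intro y y' hy hy'
    rw [hH]
    intro z
    have h3 := eq_case hp hq e1 hy hy' (z + y')
    have h4 : z + y' - y = z + (y + y') := by rw [sub_eq_add_neg, hneg]; abel
    have h5 : z + y' - y' = z := by abel
    rw [h4, h5] at h3
    exact h3
  have a2 : ∀ x x', 0 < p x → 0 < p x' → x + x' ∈ H' := by
    intro y y' hy hy'
    rw [hH']
    intro z
    have h3 := eq_case hq hp e2 hy hy' (z + y')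
    have h4 : z + y' - y = z + (y + y') := by rw [sub_eq_add_neg, hneg]; abel
    have h5 : z + y' - y' = z := by abel
    rw [h4, h5] at h3
    exact h3
  obtain ⟨x0, hx0⟩ := exists_pos hp
  obtain ⟨y0, hy0⟩ := exists_pos hq
  have b1 : ∀ h, h ∈ H' → h ∈ H := by
    intro h hh
    have h3 : 0 < q (y0 + h) := by rw [(hH' h).1 hh]; exact hy0
    have h4 := a1 y0 (y0 + h) hy0 h3
    rwa [← add_assoc, h2, zero_add] at h4
  have b2 : ∀ h, h ∈ H → h ∈ H' := by
    intro h hh
    have h3 : 0 < p (x0 + h) := by rw [(hH h).1 hh]; exact hx0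
    have h4 := a2 x0 (x0 + h) hx0 h3
    rwa [← add_assoc, h2, zero_add] at h4
  have gen : ∀ {f : G → ℝ} {w0 : G}, Pr f → 0 < f w0 → (∀ h ∈ H, ∀ z, f (z + h) = f z) →
      (∀ w, 0 < f w → w + w0 ∈ H) →
      ∀ z, f z = if z + w0 ∈ H then 1 / (Fintype.card H : ℝ) else 0 := by
    intro f w0 hf hw0 hinv hsupp
    have c1 : ∀ z, f z = if z + w0 ∈ H then f w0 else 0 := by
      intro z
      by_cases hz : z + w0 ∈ H
      · rw [if_pos hz]
        have h3 := hinv _ hz w0
        have h4 : w0 + (z + w0) = z := by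
          have : w0 + (z + w0) = z + (w0 + w0) := by abel
          rw [this, h2, add_zero]
        rw [h4] at h3
        exact h3
      · rw [if_neg hz]
        by_contra hne
        exact hz (hsupp z (lt_of_le_of_ne (hf.nn z) (Ne.symm hne)))
    have c2 : (Fintype.card H : ℝ) * f w0 = 1 := by
      rw [← hf.one]
      have c3 : ∑ z, f z = ∑ z, (if z + w0 ∈ H then f w0 else 0) :=
        Finset.sum_congr rfl (fun z _ => c1 z)
      rw [c3, ← Finset.sum_filter, Finset.sum_const, nsmul_eq_mul]
      congr 2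
      rw [← Fintype.card_coe]
      refine Fintype.card_congr ⟨fun h => ⟨(h : G) + w0, ?_⟩, fun z => ⟨(z : G) + w0, ?_⟩, ?_, ?_⟩
      · simp only [Finset.mem_filter, Finset.mem_univ, true_and]
        rw [add_assoc, h2, add_zero]; exact h.2
      · exact (Finset.mem_filter.1 z.2).2
      · intro h; apply Subtype.ext
        change (h : G) + w0 + w0 = h
        rw [add_assoc, h2, add_zero]
      · intro z; apply Subtype.ext
        change (z : G) + w0 + w0 = z
        rw [add_assoc, h2, add_zero]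
    have hc : (0 : ℝ) < Fintype.card H := by
      have : 0 < Fintype.card H := Fintype.card_pos_iff.2 ⟨0⟩
      exact_mod_cast this
    intro z
    rw [c1 z]
    by_cases hz : z + w0 ∈ H
    · rw [if_pos hz, if_pos hz]
      field_simp
      linarith
    · rw [if_neg hz, if_neg hz]
  refine ⟨H, x0, y0, gen hp hx0 (fun h hh z => (hH h).1 hh z) (fun w hw => b1 _ (a2 w x0 hw hx0)),
    gen hq hy0 (fun h hh z => (hH' h).1 (b2 h hh) z) (fun w hw => a1 w y0 hw hy0)⟩

/-- uniform law on a finset -/
noncomputable def un (A : Finset G) (x : G) : ℝ := if x ∈ A then 1 / (A.card : ℝ) else 0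

lemma card_pos' {A : Finset G} (hA : A.Nonempty) : (0 : ℝ) < A.card := by
  exact_mod_cast Finset.card_pos.2 hA

lemma pr_un {A : Finset G} (hA : A.Nonempty) : Pr (un A) := by
  have h := card_pos' hA
  constructor
  · intro x; unfold un; split_ifs
    · positivity
    · exact le_refl _
  · unfold un
    rw [← Finset.sum_filter, Finset.filter_mem_eq_inter, Finset.univ_inter, Finset.sum_const,
      nsmul_eq_mul]
    field_simp

lemma Hl_un {A : Finset G} (hA : A.Nonempty) : Hl (un A) = Real.log A.card := by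
  have h := card_pos' hA
  unfold Hl un
  have h1 : ∀ x, Real.negMulLog (if x ∈ A then 1 / (A.card : ℝ) else 0)
      = if x ∈ A then Real.negMulLog (1 / (A.card : ℝ)) else 0 := by
    intro x; split_ifs
    · rfl
    · exact Real.negMulLog_zero
  simp only [h1]
  rw [← Finset.sum_filter, Finset.filter_mem_eq_inter, Finset.univ_inter, Finset.sum_const,
    nsmul_eq_mul]
  unfold Real.negMulLog
  rw [one_div, Real.log_inv]
  field_simp

/-- the entropy is at most the logarithm of the support -/
lemma Hl_le_log {p : G → ℝ} (hp : Pr p) {D : Finset G} (hD : D.Nonempty)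
    (h : ∀ x, x ∉ D → p x = 0) : Hl p ≤ Real.log D.card := by
  have hc := card_pos' hD
  have h1 : Hl p = ∑ x ∈ D, Real.negMulLog (p x) := by
    unfold Hl
    refine (Finset.sum_subset (Finset.subset_univ D) (fun x _ hx => ?_)).symm
    rw [h x hx, Real.negMulLog_zero]
  have h2 : ∑ x ∈ D, p x = 1 := by
    rw [← hp.one]
    exact Finset.sum_subset (Finset.subset_univ D) (fun x _ hx => h x hx)
  have h3 : ∀ x ∈ D, Real.negMulLog (p x) ≤ 1 / (D.card : ℝ) - p x + p x * Real.log D.card := by
    intro x _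
    rcases eq_or_lt_of_le (hp.nn x) with h0 | h0
    · rw [← h0, Real.negMulLog_zero]
      simp
    · have h4 := Real.log_le_sub_one_of_pos (x := 1 / (D.card * p x)) (by positivity)
      rw [Real.log_div one_ne_zero (by positivity), Real.log_one,
        Real.log_mul hc.ne' h0.ne'] at h4
      have h5 := mul_le_mul_of_nonneg_left h4 h0.le
      have h6 : p x * (1 / (D.card * p x) - 1) = 1 / (D.card : ℝ) - p x := by
        field_simp
      rw [h6] at h5
      unfold Real.negMulLog
      linarith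
  rw [h1]
  refine (Finset.sum_le_sum h3).trans (le_of_eq ?_)
  rw [Finset.sum_add_distrib, Finset.sum_sub_distrib, ← Finset.sum_mul, h2, Finset.sum_const,
    nsmul_eq_mul]
  field_simp
  ring

/-- some value is at least `exp (-Hl p)` -/
lemma exists_large {p : G → ℝ} (hp : Pr p) : ∃ z, 0 < p z ∧ -Hl p ≤ Real.log (p z) := by
  obtain ⟨x0, hx0⟩ := exists_pos hp
  obtain ⟨z, -, hz⟩ := Finset.exists_max_image Finset.univ p ⟨x0, Finset.mem_univ _⟩
  have hzpos : 0 < p z := lt_of_lt_of_le hx0 (hz x0 (Finset.mem_univ _))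
  refine ⟨z, hzpos, ?_⟩
  have h1 : -Hl p = ∑ x, p x * Real.log (p x) := by
    unfold Hl Real.negMulLog
    rw [← Finset.sum_neg_distrib]
    refine Finset.sum_congr rfl (fun x _ => ?_)
    ring
  rw [h1]
  calc ∑ x, p x * Real.log (p x) ≤ ∑ x, p x * Real.log (p z) :=
        sum_pos_le hp.nn (fun x hx => Real.log_le_log hx (hz x (Finset.mem_univ _)))
    _ = Real.log (p z) := by rw [← Finset.sum_mul, hp.one, one_mul]

lemma cv_un (A B : Finset G) (z : G) :
    cv (un A) (un B) z = ((B.filter (fun y => z - y ∈ A)).card : ℝ) / (A.card * B.card) := by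
  rw [cv_apply]
  unfold un
  have h1 : ∀ y, (if y ∈ B then 1 / (B.card : ℝ) else 0) * (if z - y ∈ A then 1 / (A.card : ℝ) else 0)
      = if y ∈ B.filter (fun y => z - y ∈ A) then 1 / ((A.card : ℝ) * B.card) else 0 := by
    intro y
    by_cases hy : y ∈ B
    · by_cases hz : z - y ∈ A
      · rw [if_pos hy, if_pos hz, if_pos (Finset.mem_filter.2 ⟨hy, hz⟩), one_div_mul_one_div,
          mul_comm (B.card : ℝ)]
      · have h3 : y ∉ B.filter (fun y => z - y ∈ A) := fun h => hz (Finset.mem_filter.1 h).2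
        rw [if_neg hz, if_neg h3, mul_zero]
    · have h3 : y ∉ B.filter (fun y => z - y ∈ A) := fun h => hy (Finset.mem_filter.1 h).1
      rw [if_neg hy, if_neg h3, zero_mul]
  simp only [h1]
  rw [← Finset.sum_filter, Finset.filter_mem_eq_inter, Finset.univ_inter, Finset.sum_const,
    nsmul_eq_mul]
  ring

/-- from a small distance to a coset to a large intersection -/
lemma coset_of_dd (h2 : ∀ x : G, x + x = 0) {A : Finset G} (hA : A.Nonempty) {q : G → ℝ}
    {H : AddSubgroup G} {x0 : G}
    (hq : ∀ z, q z = if z + x0 ∈ H then 1 / (Fintype.card H : ℝ) else 0) {L : ℝ}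
    (hd : dd (un A) q ≤ 11 / 2 * L) :
    ∃ c, Real.log ((A.card : ℝ) * Fintype.card H)
      ≤ 11 * L + 2 * Real.log ((A.filter (fun z => z + c ∈ H)).card : ℝ) ∧
      0 < (A.filter (fun z => z + c ∈ H)).card := by
  set B : Finset G := Finset.univ.filter (fun z => z + x0 ∈ H) with hB
  have hBcard : B.card = Fintype.card H := by
    rw [← Fintype.card_coe]
    refine Fintype.card_congr ⟨fun z => ⟨(z : G) + x0, ?_⟩, fun h => ⟨(h : G) + x0, ?_⟩, ?_, ?_⟩
    · exact (Finset.mem_filter.1 z.2).2
    · rw [hB]; simp only [Finset.mem_filter, Finset.mem_univ, true_and]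
      rw [add_assoc, h2, add_zero]; exact h.2
    · intro z; apply Subtype.ext
      change (z : G) + x0 + x0 = z
      rw [add_assoc, h2, add_zero]
    · intro h; apply Subtype.ext
      change (h : G) + x0 + x0 = h
      rw [add_assoc, h2, add_zero]
  have hHpos : 0 < Fintype.card H := Fintype.card_pos_iff.2 ⟨0⟩
  have hBne : B.Nonempty := Finset.card_pos.1 (by rw [hBcard]; exact hHpos)
  have hqB : q = un B := by
    funext z
    rw [hq z]
    unfold un
    rw [hBcard]
    by_cases hz : z + x0 ∈ H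
    · rw [if_pos hz, if_pos (by rw [hB]; simp [hz])]
    · rw [if_neg hz, if_neg (by rw [hB]; simp [hz])]
  have hApos := card_pos' hA
  have hHposR : (0 : ℝ) < Fintype.card H := by exact_mod_cast hHpos
  rw [hqB] at hd
  unfold dd at hd
  rw [Hl_un hA, Hl_un hBne, hBcard] at hd
  obtain ⟨z, hz0, hz⟩ := exists_large ((pr_un hA).cv (pr_un hBne))
  have e1 : cv (un A) (un B) z = ((A.filter (fun y => y + (z + x0) ∈ H)).card : ℝ)
      / (A.card * Fintype.card H) := by
    rw [cv_comm, cv_un, hBcard, mul_comm (Fintype.card H : ℝ)]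
    congr 3
    refine Finset.filter_congr (fun y _ => ?_)
    rw [hB]
    simp only [Finset.mem_filter, Finset.mem_univ, true_and]
    have : z - y + x0 = y + (z + x0) := by
      have h3 : -y = y := neg_eq_of_add_eq_zero_left (h2 y)
      rw [sub_eq_add_neg, h3]; abel
    rw [this]
  rw [e1] at hz0 hz
  set n : ℕ := (A.filter (fun y => y + (z + x0) ∈ H)).card with hn
  have hnpos : 0 < n := by
    by_contra h
    have : n = 0 := by omega
    rw [this] at hz0
    simp at hz0
  have hnR : (0 : ℝ) < n := by exact_mod_cast hnpos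
  refine ⟨z + x0, ?_, hnpos⟩
  rw [Real.log_div hnR.ne' (by positivity), Real.log_mul hApos.ne' hHposR.ne'] at hz
  rw [Real.log_mul hApos.ne' hHposR.ne']
  linarith

/-- The polynomial Freiman-Ruzsa theorem over `F_2` (weak form, two sets). -/
theorem pfr (h2 : ∀ x : G, x + x = 0) (A B D : Finset G) (hA : A.Nonempty) (hB : B.Nonempty)
    (hD : ∀ a ∈ A, ∀ b ∈ B, a + b ∈ D) (K : ℝ) (hK : 0 < K) (hDA : (D.card : ℝ) ≤ K * A.card)
    (hDB : (D.card : ℝ) ≤ K * B.card) :
    ∃ (H : AddSubgroup G) (c : G) (A' : Finset G), (A' = A ∨ A' = B) ∧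
      (A'.card : ℝ) * Fintype.card H ≤ K ^ 11 * ((A'.filter (fun z => z + c ∈ H)).card : ℝ) ^ 2 := by
  obtain ⟨p, q, hm⟩ := exists_min (un A) (un B)
  have hpA := pr_un hA
  have hpB := pr_un hB
  have hd0 := min_zero hm hpA hpB h2
  obtain ⟨H, x0, y0, hpH, hqH⟩ := zero_struct h2 hm.hp hm.hq hd0
  have hAp := card_pos' hA
  have hBp := card_pos' hB
  obtain ⟨a, ha⟩ := hA
  obtain ⟨b, hb⟩ := hB
  have hDne : D.Nonempty := ⟨a + b, hD a ha b hb⟩
  have hDp := card_pos' hDne
  have hA : A.Nonempty := ⟨a, ha⟩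
  have hB : B.Nonempty := ⟨b, hb⟩
  have hL : dd (un A) (un B) ≤ Real.log K := by
    have h3 : Hl (cv (un A) (un B)) ≤ Real.log D.card := by
      refine Hl_le_log (hpA.cv hpB) hDne (fun x hx => ?_)
      rw [cv_un]
      have h4 : B.filter (fun y => x - y ∈ A) = ∅ := by
        rw [Finset.filter_eq_empty_iff]
        intro y hy hxy
        apply hx
        have := hD _ hxy _ hy
        rwa [sub_add_cancel] at this
      rw [h4]; simp
    have h5 : Real.log D.card ≤ Real.log K + Real.log A.card := by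
      rw [← Real.log_mul hK.ne' hAp.ne']
      exact Real.log_le_log hDp hDA
    have h6 : Real.log D.card ≤ Real.log K + Real.log B.card := by
      rw [← Real.log_mul hK.ne' hBp.ne']
      exact Real.log_le_log hDp hDB
    unfold dd
    rw [Hl_un hA, Hl_un hB]
    linarith
  have hmin := hm.min _ _ hpB hpA
  have hpq := dd_nonneg hm.hp hm.hq
  unfold tau at hmin
  rw [dd_comm (un B) (un A)] at hmin
  have hsum : dd (un A) p + dd (un B) q ≤ 11 * Real.log K := by linarith
  have fin : ∀ {A' : Finset G} {q' : G → ℝ} {x1 : G}, A'.Nonempty →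
      (∀ z, q' z = if z + x1 ∈ H then 1 / (Fintype.card H : ℝ) else 0) →
      dd (un A') q' ≤ 11 / 2 * Real.log K →
      ∃ c, (A'.card : ℝ) * Fintype.card H
        ≤ K ^ 11 * ((A'.filter (fun z => z + c ∈ H)).card : ℝ) ^ 2 := by
    intro A' q' x1 hA' hq' hdd
    obtain ⟨c, hc, hn⟩ := coset_of_dd h2 hA' hq' hdd
    refine ⟨c, ?_⟩
    have hA'p := card_pos' hA'
    have hHpos : 0 < Fintype.card H := Fintype.card_pos_iff.2 ⟨0⟩
    have hHposR : (0 : ℝ) < Fintype.card H := by exact_mod_cast hHpos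
    have hnR : (0 : ℝ) < ((A'.filter (fun z => z + c ∈ H)).card : ℝ) := by exact_mod_cast hn
    have h7 : 11 * Real.log K + 2 * Real.log ((A'.filter (fun z => z + c ∈ H)).card : ℝ)
        = Real.log (K ^ 11 * ((A'.filter (fun z => z + c ∈ H)).card : ℝ) ^ 2) := by
      rw [Real.log_mul (by positivity) (by positivity), Real.log_pow, Real.log_pow]
      push_cast
      ring
    rw [h7] at hc
    exact (Real.log_le_log_iff (by positivity) (by positivity)).1 hc
  by_cases hcase : dd (un A) p ≤ 11 / 2 * Real.log K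
  · obtain ⟨c, hc⟩ := fin hA hpH hcase
    exact ⟨H, c, A, Or.inl rfl, hc⟩
  · push Not at hcase
    have h8 : dd (un B) q ≤ 11 / 2 * Real.log K := by linarith
    obtain ⟨c, hc⟩ := fin hB hqH h8
    exact ⟨H, c, B, Or.inr rfl, hc⟩

end PFR44
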